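import Pool.Agent.Lib.MP_ccffa6_gt.Defs

/-!
Block G: square roots of positive operators, continuity of orthogonal projectors.
-/

open Set Filter Topology Complex
open scoped ContDiff

noncomputable section

namespace Pool.Agent.Lib.MP_ccffa6_gt

open scoped MatrixOrder Matrix.Norms.L2Operator in
/-- Continuous square root. -/
theorem g_sqrt (L : ℕ) : ∃ S : (Rd L →L[ℝ] Rd L) → (Rd L →L[ℝ] Rd L),
    ContinuousOn S {B | B.IsPositive} ∧ ∀ B : Rd L →L[ℝ] Rd L, B.IsPositive →
      (S B).IsPositive ∧ S B * S B = B ∧ ∀ T, Commute T B → Commute T (S B) := by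
  let e := Matrix.toEuclideanCLM (n := Fin L) (𝕜 := ℝ)
  have hp : ∀ A, (e A).IsPositive ↔ 0 ≤ A := fun A => by
    rw [← ContinuousLinearMap.isPositive_toLinearMap_iff, Matrix.nonneg_iff_posSemidef,
      ← Matrix.isPositive_toEuclideanLin_iff]
    rfl
  have hq : ∀ B : Rd L →L[ℝ] Rd L, B.IsPositive → 0 ≤ e.symm B := fun B hB =>
    (hp _).1 (by rwa [e.apply_symm_apply])
  have c1 : Continuous e := e.toAlgEquiv.toLinearMap.continuous_of_finiteDimensional
  have c2 : Continuous e.symm := e.symm.toAlgEquiv.toLinearMap.continuous_of_finiteDimensional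
  refine ⟨fun B => e (CFC.sqrt (e.symm B)),
    c1.comp_continuousOn (CFC.continuousOn_sqrt.comp c2.continuousOn hq), fun B hB =>
      ⟨(hp _).2 (CFC.sqrt_nonneg _), ?_, fun T hT => ?_⟩⟩
  · rw [← map_mul, CFC.sqrt_mul_sqrt_self _ (hq B hB), e.apply_symm_apply]
  · have := ((hT.map e.symm).symm.cfcₙ_nnreal NNReal.sqrt).symm.map e
    rwa [e.apply_symm_apply] at this

/-- A field of subspaces with a continuous projector field has continuous orthogonal projectors. -/
theorem g_orth {L : ℕ} {X : Type} [TopologicalSpace X] {N : Set X} (ξ : X → Submodule ℝ (Rd L))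
    (P : X → Rd L →L[ℝ] Rd L) (cP : ContinuousOn P N) (Pm : ∀ x ∈ N, ∀ v, P x v ∈ ξ x)
    (Pid : ∀ x ∈ N, ∀ v ∈ ξ x, P x v = v) :
    ContinuousOn (fun x => (ξ x).starProjection) N := by
  have h1 : ∀ x ∈ N, ∀ y ∈ N, ‖(1 - (ξ x).starProjection) * (ξ y).starProjection‖ ≤ ‖P y - P x‖ :=
    fun x hx y hy => ContinuousLinearMap.opNorm_le_bound _ (norm_nonneg _) fun v => by
      have e : ((1 - (ξ x).starProjection) * (ξ y).starProjection) v =
          (ξ x)ᗮ.starProjection ((P y - P x) ((ξ y).starProjection v)) := by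
        simp [Submodule.starProjection_orthogonal_val, Pid y hy,
          Submodule.starProjection_eq_self_iff.2 (Pm x hx _)]
      rw [e]
      exact (Submodule.norm_starProjection_apply_le _ _).trans (((P y - P x).le_opNorm _).trans
        (mul_le_mul_of_nonneg_left (Submodule.norm_starProjection_apply_le _ _) (norm_nonneg _)))
  intro x hx
  have h2 := (tendsto_iff_norm_sub_tendsto_zero.1 (cP x hx)).const_mul 2
  rw [mul_zero] at h2
  refine tendsto_iff_norm_sub_tendsto_zero.2 (squeeze_zero' (.of_forall fun _ => norm_nonneg _)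
    (eventually_nhdsWithin_of_forall fun y hy => ?_) h2)
  have e : (ξ y).starProjection - (ξ x).starProjection =
      (1 - (ξ x).starProjection) * (ξ y).starProjection -
        star ((1 - (ξ y).starProjection) * (ξ x).starProjection) := by
    rw [star_mul, star_sub, star_one, (isSelfAdjoint_starProjection _).star_eq,
      (isSelfAdjoint_starProjection _).star_eq]
    noncomm_ring
  rw [e, two_mul]
  refine (norm_sub_le _ _).trans (add_le_add (h1 x hx y hy) ?_)
  rw [ContinuousLinearMap.star_eq_adjoint, LinearIsometryEquiv.norm_map, norm_sub_rev]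
  exact h1 y hy x hx

/-- A pointwise positive definite continuous family on a compact set is uniformly positive. -/
theorem g_unif_pos {E : Type} [NormedAddCommGroup E] [NormedSpace ℝ E] [FiniteDimensional ℝ E]
    {X : Type} [TopologicalSpace X] {N : Set X} (hN : IsCompact N) {g : X → Bil E}
    (cg : ContinuousOn g N) (gp : ∀ x ∈ N, ∀ u, u ≠ 0 → 0 < g x u u) :
    ∃ c : ℝ, 0 < c ∧ ∀ x ∈ N, ∀ u, c * ‖u‖ ^ 2 ≤ g x u u := by
  have hK := hN.prod (isCompact_sphere (0 : E) 1)
  have hc : ContinuousOn (fun p : X × E => g p.1 p.2 p.2) (N ×ˢ Metric.sphere 0 1) :=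
    ((cg.comp continuousOn_fst fun _ h => h.1).clm_apply continuousOn_snd).clm_apply
      continuousOn_snd
  obtain ⟨c, h0, h⟩ := hK.exists_forall_le' hc (a := 0) fun p hp =>
    gp _ hp.1 _ (ne_zero_of_mem_unit_sphere ⟨_, hp.2⟩)
  refine ⟨c, h0, fun x hx u => ?_⟩
  rcases eq_or_ne u 0 with rfl | hu
  · simp
  have hn := norm_pos_iff.2 hu
  have := h (x, ‖u‖⁻¹ • u) ⟨hx, by simp [norm_smul, hn.ne']⟩
  simp only [map_smul, smul_apply, smul_eq_mul] at this
  rwa [← mul_assoc, ← pow_two, inv_pow, le_inv_mul_iff₀ (pow_pos hn 2), mul_comm] at this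

/-- Frames with uniform bounds. -/
theorem g_frame (E : Type) [NormedAddCommGroup E] [NormedSpace ℝ E] [FiniteDimensional ℝ E]
    (m : ℕ) : ∃ c C : ℝ, 0 < c ∧ ∀ T : Submodule ℝ E, Module.finrank ℝ T = m →
      ∃ j : Rd m →L[ℝ] E, (∀ z, j z ∈ T) ∧ (∀ z, c * ‖z‖ ≤ ‖j z‖) ∧ ‖j‖ ≤ C := by
  let e := toEuclidean (E := E)
  refine ⟨(‖e.toContinuousLinearMap‖ + 1)⁻¹, ‖e.symm.toContinuousLinearMap‖, by positivity, fun T hT => ?_⟩
  let T' := T.map e.toLinearEquiv.toLinearMap
  have hT' : Module.finrank ℝ T' = m := (LinearEquiv.finrank_map_eq _ T).trans hT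
  let i := T'.subtypeₗᵢ.comp
    ((stdOrthonormalBasis ℝ T').reindex (finCongr hT')).repr.symm.toLinearIsometry
  refine ⟨e.symm.toContinuousLinearMap.comp i.toContinuousLinearMap, fun z => ?_, fun z => ?_, ?_⟩
  · obtain ⟨y, hy, h⟩ : i z ∈ T' := Subtype.property _
    exact (h ▸ (e.symm_apply_apply y).symm ▸ hy : e.symm (i z) ∈ T)
  · rw [inv_mul_le_iff₀ (by positivity), ← i.norm_map z, ← e.apply_symm_apply (i z)]
    exact (e.toContinuousLinearMap.le_opNorm _).trans
      (mul_le_mul_of_nonneg_right (le_add_of_nonneg_right zero_le_one) (norm_nonneg _))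
  · exact (ContinuousLinearMap.opNorm_comp_le _ _).trans
      (mul_le_of_le_one_right (norm_nonneg _) i.norm_toContinuousLinearMap_le)

end Pool.Agent.Lib.MP_ccffa6_gt
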