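import Pool.Agent.Lib.MP_ccffa6_gt.G.Fin
import Pool.Agent.Lib.MP_ccffa6_gt.Iface

/-!
Block G: every closed contact manifold carries a weak open book.
-/

namespace Pool.Agent.Lib.MP_ccffa6_gt

theorem G_main (n : ℕ) : GStmt n := by
  intro E _ _ _ N α h
  obtain ⟨g, J, P, ι, c, C, hD, hR⟩ := g_data h
  exact g_final hD hR

end Pool.Agent.Lib.MP_ccffa6_gt
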