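import Pool.Agent.Lib.MP_ccffa6_gt.L.Jet

/-!
Block G: the abstract transversality lemma (random coefficients, local lemma) and the packing sum.
-/

open Set Module

namespace Pool.Agent.Lib.MP_ccffa6_gt

theorem g_pack {E I : Type} [NormedAddCommGroup E] [NormedSpace ℝ E] [FiniteDimensional ℝ E]
    (Q : Finset I) (pos : I → E) (h : ∀ p ∈ Q, ∀ q ∈ Q, p ≠ q → 1 ≤ ‖pos p - pos q‖) (x : E)
    (t : ℝ) (ht : 1 ≤ t) : ((Q.filter fun q => ‖x - pos q‖ ≤ t).card : ℝ) ≤
      3 ^ finrank ℝ E * t ^ finrank ℝ E := by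
  refine (l_card_ball _ (fun q => x - pos q) (by linarith) one_pos
    (fun q hq => (Finset.mem_filter.1 hq).2) fun y hy z hz e => ?_).trans ?_
  · rw [sub_sub_sub_cancel_left]
    exact h z (Finset.mem_filter.1 hz).1 y (Finset.mem_filter.1 hy).1 e.symm
  · rw [← mul_pow]
    exact pow_le_pow_left₀ (by linarith) (by linarith) _

theorem g_exp_le (K : ℕ) {t : ℝ} (ht : 0 ≤ t) :
    Real.exp (-t) ≤ 3 * K.factorial / (1 + t) ^ K := by
  have h1 := Real.pow_div_factorial_le_exp (1 + t) (by linarith) K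
  have h2 : Real.exp 1 ≤ 3 := by linarith [Real.exp_one_lt_d9]
  have h3 : (0 : ℝ) < K.factorial := by exact_mod_cast K.factorial_pos
  rw [div_le_iff₀ h3, Real.exp_add] at h1
  rw [le_div_iff₀ (by positivity), Real.exp_neg, inv_mul_le_iff₀ (Real.exp_pos t)]
  refine h1.trans ?_
  have := mul_le_mul_of_nonneg_right h2 (mul_pos (Real.exp_pos t) h3).le
  linarith

/-- Exponential weights over a separated family have a bounded sum. -/
theorem g_sum_exp (E : Type) [NormedAddCommGroup E] [NormedSpace ℝ E] [FiniteDimensional ℝ E] :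
    ∃ C₀ : ℝ, ∀ (I : Type) (Q : Finset I) (pos : I → E),
      (∀ p ∈ Q, ∀ q ∈ Q, p ≠ q → 1 ≤ ‖pos p - pos q‖) →
      ∀ x : E, ∑ q ∈ Q, Real.exp (-‖x - pos q‖) ≤ C₀ := by
  refine ⟨3 * (finrank ℝ E + 2).factorial * (2 * 3 ^ finrank ℝ E), fun I Q pos h x => ?_⟩
  refine le_trans ?_ (mul_le_mul_of_nonneg_left (l_sum_tail Q (fun q => ‖x - pos q‖)
    (fun _ _ => norm_nonneg _) (g_pack Q pos h x)) (by positivity))
  rw [Finset.mul_sum]
  exact Finset.sum_le_sum fun q _ => (g_exp_le _ (norm_nonneg _)).trans_eq (mul_one_div _ _).symm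

/-- Coefficients can be chosen so that all the local jets stay away from zero, with a bound which
depends on the constants only. -/
theorem g_lll (E V W F : Type) [NormedAddCommGroup E] [NormedSpace ℝ E] [FiniteDimensional ℝ E]
    [NormedAddCommGroup V] [NormedSpace ℝ V] [FiniteDimensional ℝ V]
    [NormedAddCommGroup W] [NormedSpace ℝ W] [FiniteDimensional ℝ W] [NormedAddCommGroup F]
    (hd : finrank ℝ W < finrank ℝ V) (c C : ℝ) (hc : 0 < c) :
    ∃ η : ℝ, 0 < η ∧ ∀ (I X : Type) (Q : Finset I) (pos : I → E) (B : I → Set X) (π : I → X → W)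
      (Φ : I → I → X → V → F),
      (∀ p ∈ Q, ∀ q ∈ Q, p ≠ q → 1 ≤ ‖pos p - pos q‖) →
      (∀ p ∈ Q, ∀ x ∈ B p, ‖π p x‖ ≤ C) →
      (∀ p ∈ Q, ∀ q ∈ Q, ∀ x ∈ B p, ∀ v, ‖v‖ ≤ 1 →
        ‖Φ p q x v‖ ≤ C * Real.exp (-‖pos p - pos q‖)) →
      (∀ p ∈ Q, ∀ q ∈ Q, ∀ x ∈ B p, ∀ y ∈ B p, ∀ v, ‖v‖ ≤ 1 →
        ‖Φ p q x v - Φ p q y v‖ ≤ C * Real.exp (-‖pos p - pos q‖) * ‖π p x - π p y‖) →
      (∀ p ∈ Q, ∀ x ∈ B p, ∀ v v', ‖v‖ ≤ 1 → ‖v'‖ ≤ 1 →
        c * ‖v - v'‖ ≤ ‖Φ p p x v - Φ p p x v'‖) →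
      ∃ cf : I → V, (∀ q, ‖cf q‖ ≤ 1) ∧
        ∀ p ∈ Q, ∀ x ∈ B p, η ≤ ‖∑ q ∈ Q, Φ p q x (cf q)‖ := by
  classical
  obtain ⟨C₀, hC₀⟩ := g_sum_exp E
  let e : (Fin (finrank ℝ V) → ℝ) ≃L[ℝ] V := ContinuousLinearEquiv.ofFinrankEq (by simp)
  obtain ⟨a, ha, h1⟩ := SemilinearMapClass.bound_of_continuous e e.continuous
  obtain ⟨a', ha', h2⟩ := SemilinearMapClass.bound_of_continuous e.symm e.symm.continuous
  let j : (Fin (finrank ℝ V) → ℝ) → V := fun v => a⁻¹ • e v
  have j1 : ∀ v, ‖v‖ ≤ 1 → ‖j v‖ ≤ 1 := fun v hv => by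
    rw [norm_smul, norm_inv, Real.norm_of_nonneg ha.le, inv_mul_le_iff₀ ha]
    exact (h1 v).trans (mul_le_mul_of_nonneg_left hv ha.le)
  have j2 : ∀ v v', ‖v - v'‖ ≤ a' * a * ‖j v - j v'‖ := fun v v' => by
    have := h2 (e (v - v'))
    rw [← smul_sub, ← map_sub, norm_smul, norm_inv, Real.norm_of_nonneg ha.le, mul_assoc,
      mul_inv_cancel_left₀ ha.ne']
    rwa [e.symm_apply_apply] at this
  obtain ⟨J, -, hJ⟩ := Finset.exists_subset_card_eq (s := Finset.univ (α := Fin (finrank ℝ V)))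
    (n := finrank ℝ W + 1) (by simpa using hd)
  let C₁ := |C| + 1
  let L := C₁ * (|C₀| + 1)
  have c1 : 0 < C₁ := by positivity
  have c2 : C ≤ C₁ := by linarith [le_abs_self C]
  have c3 : 0 < L := by positivity
  let K := 2 * finrank ℝ E + 3
  let C' := 1 + 3 ^ finrank ℝ E + C₁ * (3 * K.factorial) + a' * a / c +
    (2 * C₁ * L + 1) ^ finrank ℝ W
  have d1 : (0 : ℝ) ≤ 3 ^ finrank ℝ E := by positivity
  have d2 : 0 ≤ C₁ * (3 * K.factorial) := by positivity
  have d3 : 0 ≤ a' * a / c := by positivity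
  have d4 : 0 ≤ (2 * C₁ * L + 1) ^ finrank ℝ W := by positivity
  obtain ⟨η, e1, e2, h⟩ := l_core (finrank ℝ V) (finrank ℝ W) (finrank ℝ E) (C := C')
    (by simp only [C']; linarith) one_pos
  refine ⟨η, e1, fun I X Q pos B π Φ a1 a2 a3 a4 a5 => ?_⟩
  obtain ⟨cf, b1, b2⟩ := h Q (fun q p => ‖pos p - pos q‖) X (fun p => B p) F (fun _ _ => 0)
    (fun p x q v => Φ p q x (j v)) (fun _ _ => norm_nonneg _) (fun _ _ => norm_sub_rev _ _)
    (fun p => by simp)
    (fun p t ht => (g_pack Finset.univ (fun q : Q => pos q) (fun p _ q _ hne =>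
      a1 p p.2 q q.2 fun h => hne (Subtype.ext h)) _ t ht).trans
        (mul_le_mul_of_nonneg_right (by simp only [C']; linarith) (by positivity)))
    (fun p x hx q v hv => by
      refine (a3 p p.2 q q.2 x hx _ (j1 v hv)).trans ((mul_le_mul c2 (g_exp_le K (norm_nonneg _))
        (Real.exp_pos _).le c1.le).trans ?_)
      rw [mul_div_assoc']
      exact div_le_div_of_nonneg_right (by simp only [C']; linarith) (by positivity))
    (fun p x hx => ⟨J, hJ, fun v v' hv hv' _ => by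
      have := (le_div_iff₀' hc).2 (a5 p p.2 x hx _ _ (j1 v hv) (j1 v' hv'))
      refine (j2 v v').trans ((mul_le_mul_of_nonneg_left this (by positivity)).trans ?_)
      rw [mul_div_assoc', mul_div_right_comm]
      exact mul_le_mul_of_nonneg_right (by simp only [C']; linarith) (norm_nonneg _)⟩)
    (fun p => by
      obtain ⟨s, s1, s2, s3⟩ := l_net_of_map (B p) (π p) c1.le (div_pos e1 c3)
        fun x hx => (a2 p p.2 x hx).trans c2
      refine ⟨s, s1, s2.trans ?_, fun x hx => ?_⟩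
      · have : 2 * C₁ / (η / L) + 1 ≤ (2 * C₁ * L + 1) / η := by
          rw [add_div, div_div_eq_mul_div]
          linarith [one_le_one_div e1 e2]
        refine (pow_le_pow_left₀ (by positivity) this _).trans ?_
        rw [div_pow]
        exact div_le_div_of_nonneg_right (by simp only [C']; linarith) (by positivity)
      · obtain ⟨y, hy, hxy⟩ := s3 x hx
        refine ⟨y, hy, fun cf hcf => ?_⟩
        rw [zero_add, zero_add]
        refine (norm_le_norm_add_norm_sub' _ _).trans (add_le_add le_rfl ?_)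
        rw [← Finset.sum_sub_distrib]
        refine (norm_sum_le _ _).trans ?_
        calc _ ≤ ∑ q : Q, C₁ * (η / L) * Real.exp (-‖pos p - pos q‖) :=
              Finset.sum_le_sum fun q _ => by
                rw [norm_sub_rev, mul_right_comm]
                exact (a4 p p.2 q q.2 x hx y (s1 hy) _ (j1 _ (hcf q))).trans (by gcongr)
          _ ≤ C₁ * (η / L) * (|C₀| + 1) := by
              rw [← Finset.mul_sum, Finset.sum_coe_sort Q fun q => Real.exp (-‖pos p - pos q‖)]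
              exact mul_le_mul_of_nonneg_left ((hC₀ I Q pos a1 _).trans
                (by linarith [le_abs_self C₀])) (by positivity)
          _ = η := by simp only [L]; field_simp)
  refine ⟨fun q => if h : q ∈ Q then j (cf ⟨q, h⟩) else 0, fun q => ?_, fun p hp x hx => ?_⟩
  · dsimp only
    split_ifs
    · exact j1 _ (b1 _)
    · simp
  · have := b2 ⟨p, hp⟩ x hx
    rw [zero_add] at this
    rw [← Finset.sum_coe_sort Q]
    simpa using this

end Pool.Agent.Lib.MP_ccffa6_gt
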