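import Pool.Agent.Lib.MP_ccffa6_gt.G.Data

/-!
Block G: uniform constants on the compact set.
-/

open Set Filter Topology Complex
open scoped ContDiff

noncomputable section

namespace Pool.Agent.Lib.MP_ccffa6_gt

variable {E : Type} [NormedAddCommGroup E] [NormedSpace ℝ E]
  [FiniteDimensional ℝ E]
  {m : ℕ} {N : Set E} {α : Form1 E} {ξ : E → Submodule ℝ E} {g : E → Bil E}
  {J P : E → E →L[ℝ] E} {ι : E → Rd m →L[ℝ] E} {c C A : ℝ}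

theorem gtay_lip {F : Type} [NormedAddCommGroup F] [NormedSpace ℝ F] {f : E → F}
    (hf : ContDiff ℝ 1 f) {s : Set E} (hs : Convex ℝ s) (hc : IsCompact s) :
    ∃ L : ℝ, 0 ≤ L ∧ ∀ x ∈ s, ∀ y ∈ s, ‖f x - f y‖ ≤ L * ‖x - y‖ := by
  obtain ⟨L, hL⟩ := hf.contDiffOn.exists_lipschitzOnWith one_ne_zero hs hc
  exact ⟨L, L.2, fun x hx y hy => hL.norm_sub_le hx hy⟩

theorem gtay_tay {F : Type} [NormedAddCommGroup F] [NormedSpace ℝ F] {f : E → F}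
    (hf : ContDiff ℝ ∞ f) {s : Set E} (hs : Convex ℝ s) (hc : IsCompact s) :
    ∃ L : ℝ, 0 ≤ L ∧ ∀ x ∈ s, ∀ q ∈ s, ‖f x - f q - fderiv ℝ f q (x - q)‖ ≤ L * ‖x - q‖ ^ 2 := by
  obtain ⟨L, h0, hL⟩ := gtay_lip (hf.fderiv_right (m := 1) (by norm_cast)) hs hc
  refine ⟨L, h0, fun x hx q hq => ?_⟩
  have h := (hs.inter (convex_closedBall q ‖x - q‖)).norm_image_sub_le_of_norm_fderiv_le'
    (f := f) (φ := fderiv ℝ f q) (C := L * ‖x - q‖) (x := q) (y := x)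
    (fun z _ => hf.differentiable (by simp) z)
    (fun z hz => (hL z hz.1 q hq).trans
      (mul_le_mul_of_nonneg_left (mem_closedBall_iff_norm.1 hz.2) h0))
    ⟨hq, Metric.mem_closedBall_self (norm_nonneg _)⟩ ⟨hx, mem_closedBall_iff_norm.2 le_rfl⟩
  rwa [mul_assoc, ← sq] at h

theorem gtay_unif {F : Type} [NormedAddCommGroup F] {f : E → F} (hN : IsCompact N)
    (hf : ContinuousOn f N) {ε : ℝ} (hε : 0 < ε) :
    ∃ δ, 0 < δ ∧ ∀ x ∈ N, ∀ q ∈ N, ‖x - q‖ ≤ δ → ‖f x - f q‖ ≤ ε := by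
  simpa only [dist_eq_norm] using
    Metric.uniformContinuousOn_iff_le.1 (hN.uniformContinuousOn_of_continuous hf) ε hε

theorem gtay_mod {F : Type} [NormedAddCommGroup F] {f : E → F} (hN : IsCompact N)
    (hf : ContinuousOn f N) {ε : ℝ} (hε : 0 < ε) :
    ∃ A', 0 ≤ A' ∧ ∀ x ∈ N, ∀ q ∈ N, ‖f x - f q‖ ≤ ε + A' * ‖x - q‖ ^ 2 := by
  obtain ⟨δ, hδ, h⟩ := gtay_unif hN hf hε
  obtain ⟨B, hB⟩ := hN.exists_bound_of_continuousOn hf
  refine ⟨2 * |B| / δ ^ 2, by positivity, fun x hx q hq => ?_⟩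
  rcases le_total ‖x - q‖ δ with h1 | h1
  · exact (h x hx q hq h1).trans (le_add_of_nonneg_right (by positivity))
  · have h2 : 2 * |B| / δ ^ 2 * δ ^ 2 ≤ 2 * |B| / δ ^ 2 * ‖x - q‖ ^ 2 := by gcongr
    rw [div_mul_cancel₀ _ (by positivity)] at h2
    linarith [norm_sub_le (f x) (f q), hB x hx, hB q hq, le_abs_self B]

theorem gtay_dF (h : ContDiff ℝ ∞ α) : Continuous (dF α) :=
  have h1 := h.continuous_fderiv (by simp)
  h1.sub ((ContinuousLinearMap.flipₗᵢ ℝ E E ℝ).continuous.comp h1)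

/-- Bounds, Lipschitz and Taylor estimates. -/
theorem GD.bounds (h : GD m N α ξ g J P ι c C) : ∃ A, GB N α g A ∧ C ≤ A := by
  obtain ⟨R, hR⟩ := h.cpt.isBounded.subset_closedBall 0
  obtain ⟨L, h0, hL⟩ := gtay_lip (h.sm.of_le (by simp)) (convex_closedBall 0 R)
    (isCompact_closedBall 0 R)
  obtain ⟨T, h1, hT⟩ := gtay_tay h.sm (convex_closedBall 0 R) (isCompact_closedBall 0 R)
  obtain ⟨B₁, h2⟩ := h.cpt.exists_bound_of_continuousOn (f := g) h.cg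
  obtain ⟨B₂, h3⟩ := h.cpt.exists_bound_of_continuousOn (f := fderiv ℝ α)
    (h.sm.continuous_fderiv (by simp)).continuousOn
  obtain ⟨B₃, h4⟩ := h.cpt.exists_bound_of_continuousOn (f := dF α) (gtay_dF h.sm).continuousOn
  obtain ⟨A, hA⟩ := (Set.toFinite {1, C, L, T, B₁, B₂, B₃}).bddAbove
  simp only [mem_upperBounds, mem_insert_iff, mem_singleton_iff, forall_eq_or_imp, forall_eq] at hA
  obtain ⟨a1, a2, a3, a4, a5, a6, a7⟩ := hA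
  exact ⟨A, ⟨a1, fun x hx => (h2 x hx).trans a5, fun x hx => (h3 x hx).trans a6,
    fun x hx => (h4 x hx).trans a7,
    fun x hx q hq => (hL x (hR hx) q (hR hq)).trans (by gcongr),
    fun x hx q hq => (hT x (hR hx) q (hR hq)).trans (by gcongr)⟩, a2⟩

/-- Modulus of continuity of `g + i dα`. -/
theorem GD.modH (h : GD m N α ξ g J P ι c C) {ε : ℝ} (hε : 0 < ε) :
    ∃ A', 0 ≤ A' ∧ ∀ x ∈ N, ∀ q ∈ N, ‖gH α g x - gH α g q‖ ≤ ε + A' * ‖x - q‖ ^ 2 := by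
  obtain ⟨A₁, h1, h2⟩ := gtay_mod (f := g) h.cpt h.cg (half_pos hε)
  obtain ⟨A₂, h3, h4⟩ := gtay_mod (f := dF α) h.cpt (gtay_dF h.sm).continuousOn (half_pos hε)
  refine ⟨A₁ + A₂, add_nonneg h1 h3, fun x hx q hq => ?_⟩
  rw [gH, gH, gCx_sub]
  refine (gCx_norm _ _).trans ((add_le_add (h2 x hx q hq) (h4 x hx q hq)).trans_eq ?_)
  ring

/-- Uniform continuity of the projectors. -/
theorem GD.modP (h : GD m N α ξ g J P ι c C) {ε : ℝ} (hε : 0 < ε) :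
    ∃ δ, 0 < δ ∧ ∀ x ∈ N, ∀ q ∈ N, ‖x - q‖ ≤ δ → ‖P x - P q‖ ≤ ε :=
  gtay_unif (f := P) h.cpt h.cP hε

/-- Uniform local coordinates (finite subcover and Lebesgue number). -/
theorem GD.uflat (h : GD m N α ξ g J P ι c C) :
    ∃ K δ : ℝ, 0 ≤ K ∧ 0 < δ ∧ ∀ p ∈ N, ∃ π : E → Rd (m + 1), ∀ x ∈ N, ∀ y ∈ N,
      ‖x - p‖ ≤ δ → ‖y - p‖ ≤ δ → ‖x - y‖ ≤ K * ‖π x - π y‖ ∧ ‖π x - π y‖ ≤ K * ‖x - y‖ := by
  choose U hU π K hK using h.flat
  obtain ⟨t, ht⟩ := h.cpt.elim_nhds_subcover' (fun p hp => interior (U p hp))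
    fun p hp => interior_mem_nhds.2 (hU p hp)
  obtain ⟨δ, hδ, h1⟩ := lebesgue_number_lemma_of_metric (c := fun p : t => interior (U p.1 p.1.2))
    h.cpt (fun _ => isOpen_interior) fun x hx => by
      obtain ⟨p, hp, hx⟩ := mem_iUnion₂.1 (ht hx)
      exact mem_iUnion.2 ⟨⟨p, hp⟩, hx⟩
  refine ⟨∑ p ∈ t, |K p p.2|, δ / 2, by positivity, half_pos hδ, fun p hp => ?_⟩
  obtain ⟨q, hq⟩ := h1 p hp
  have h2 : ∀ x, ‖x - p‖ ≤ δ / 2 → x ∈ U q.1 q.1.2 := fun x hx =>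
    interior_subset (hq (mem_ball_iff_norm.2 (hx.trans_lt (half_lt_self hδ))))
  have h3 : K q.1 q.1.2 ≤ ∑ p ∈ t, |K p p.2| := (le_abs_self _).trans
    (Finset.single_le_sum (f := fun p : N => |K p p.2|) (fun _ _ => abs_nonneg _) q.2)
  refine ⟨π q.1 q.1.2, fun x hx y hy h4 h5 => ?_⟩
  have h6 := hK q.1 q.1.2 x ⟨hx, h2 x h4⟩ y ⟨hy, h2 y h5⟩
  exact ⟨h6.1.trans (by gcongr), h6.2.trans (by gcongr)⟩

/-- Separated nets of a compact set. -/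
theorem g_net {N : Set E} (hN : IsCompact N) {r : ℝ} (hr : 0 < r) :
    ∃ Q : Finset E, ↑Q ⊆ N ∧ (∀ p ∈ Q, ∀ q ∈ Q, p ≠ q → r ≤ ‖p - q‖) ∧
      ∀ x ∈ N, ∃ p ∈ Q, ‖x - p‖ ≤ r := by
  classical
  obtain ⟨t, -, ht⟩ := hN.elim_nhds_subcover (fun p => Metric.ball p (r / 2))
    fun p _ => Metric.ball_mem_nhds p (half_pos hr)
  suffices H : ∀ s : Finset E, ∃ Q : Finset E, ↑Q ⊆ N ∧ (∀ p ∈ Q, ∀ q ∈ Q, p ≠ q → r ≤ ‖p - q‖) ∧
      ∀ x ∈ N, ∀ z ∈ s, x ∈ Metric.ball z (r / 2) → ∃ p ∈ Q, ‖x - p‖ ≤ r by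
    obtain ⟨Q, h1, h2, h3⟩ := H t
    refine ⟨Q, h1, h2, fun x hx => ?_⟩
    obtain ⟨z, hz, h4⟩ := mem_iUnion₂.1 (ht hx)
    exact h3 x hx z hz h4
  intro s
  induction s using Finset.induction_on with
  | empty => exact ⟨∅, by simp, by simp, by simp⟩
  | insert z s _ ih =>
    obtain ⟨Q, h1, h2, h3⟩ := ih
    by_cases h : ∀ x ∈ N, x ∈ Metric.ball z (r / 2) → ∃ p ∈ Q, ‖x - p‖ ≤ r
    · exact ⟨Q, h1, h2, fun x hx => Finset.forall_mem_insert _ _ _ |>.2 ⟨h x hx, h3 x hx⟩⟩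
    · push Not at h
      obtain ⟨y, hy, h4, h5⟩ := h
      refine ⟨insert y Q, by simpa using insert_subset hy h1, fun p hp q hq hpq => ?_,
        fun x hx => Finset.forall_mem_insert _ _ _ |>.2 ⟨fun h6 => ⟨y, by simp, ?_⟩, fun w hw h6 =>
          (h3 x hx w hw h6).imp fun p hp => ⟨Finset.mem_insert_of_mem hp.1, hp.2⟩⟩⟩
      · rcases Finset.mem_insert.1 hp with e | e <;> rcases Finset.mem_insert.1 hq with e' | e'
        · exact absurd (e.trans e'.symm) hpq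
        · exact e ▸ (h5 q e').le
        · exact e' ▸ norm_sub_rev y p ▸ (h5 p e).le
        · exact h2 p e q e' hpq
      · rw [← dist_eq_norm]
        linarith [dist_triangle_right x y z, Metric.mem_ball.1 h4, Metric.mem_ball.1 h6]

end Pool.Agent.Lib.MP_ccffa6_gt
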