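import Pool.Agent.Lib.MP_ccffa6_gt.G.Term2
import Pool.Agent.Lib.MP_ccffa6_gt.G.Tay
import Pool.Agent.Lib.MP_ccffa6_gt.G.Lll

/-!
Block G: the local lemma applied to the peak sections.
-/

open Set Filter Topology Complex
open scoped ContDiff

noncomputable section

namespace Pool.Agent.Lib.MP_ccffa6_gt

variable {E : Type} [NormedAddCommGroup E] [NormedSpace ℝ E]
  [FiniteDimensional ℝ E]
  {m : ℕ} {N : Set E} {α : Form1 E} {ξ : E → Submodule ℝ E} {g : E → Bil E}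
  {J P : E → E →L[ℝ] E} {ι : E → Rd m →L[ℝ] E} {c C A : ℝ}

omit [FiniteDimensional ℝ E] in
/-- The jets seen from `p` add up to the jet of the sum, up to a unit factor. -/
theorem g_jet_sum (α : Form1 E) (g : E → Bil E) (ι : E → Rd m →L[ℝ] E) (κ : ℝ) (Q : Finset E)
    (cf : E → ℂ × Rd m) (p x : E) :
    ∑ q ∈ Q, gJet (gH α g q) (gB α g q) (κ • (α q - α p)) (-(κ ^ 2 * α p (q - p))) (ι p)
        (cf q).1 (ι q (cf q).2) (κ • (x - q)) =
      exp (-(I * (κ ^ 2 * α p (x - p) : ℝ))) •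
        (gS α g ι κ Q cf x, (gM α g ι κ Q cf x).comp (ι p)) := by
  have e : ∀ q, exp (I * ((-(κ ^ 2 * α p (q - p)) + (κ • (α q - α p)) (κ • (x - q)) : ℝ) : ℂ) +
      gB α g q (κ • (x - q)) (κ • (x - q))) =
      exp (-(I * (κ ^ 2 * α p (x - p) : ℝ))) * gPk α g κ q x := fun q => by
    have h1 : -(κ ^ 2 * α p (q - p)) + (κ • (α q - α p)) (κ • (x - q)) =
        κ * α q (κ • (x - q)) - κ ^ 2 * α p (x - p) := by
      simp only [smul_apply, sub_apply, map_smul, map_sub, smul_eq_mul]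
      ring
    rw [h1, gPk, ← exp_add, ofReal_sub]
    congr 1
    ring
  simp only [gJet, e]
  refine Prod.ext ?_ ?_
  · simp only [Prod.fst_sum, Prod.smul_fst, smul_eq_mul, gS, gSec, Finset.mul_sum]
    exact Finset.sum_congr rfl fun q _ => by ring
  · ext z
    simp only [Prod.snd_sum, Prod.smul_snd, gM, ContinuousLinearMap.comp_apply,
      sum_apply, smul_apply, smul_eq_mul, Finset.mul_sum]
    exact Finset.sum_congr rfl fun q _ => by ring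

/-- The local lemma applied to the jets of the peak sections. -/
theorem GD.app (h : GD m N α ξ g J P ι c C) (hb : GB N α g A) (hC : C ≤ A) :
    ∃ η κ₀ : ℝ, 0 < η ∧ ∀ κ : ℝ, 0 < κ → κ₀ ≤ κ → ∀ Q : Finset E, ↑Q ⊆ N →
      (∀ p ∈ Q, ∀ q ∈ Q, p ≠ q → 1 / κ ≤ ‖p - q‖) →
      ∃ cf : E → ℂ × Rd m, (∀ q, ‖cf q‖ ≤ 1) ∧ ∀ p ∈ Q, ∀ x ∈ N, ‖x - p‖ ≤ 1 / κ →
        η ≤ ‖gS α g ι κ Q cf x‖ ∨ η ≤ ‖(gM α g ι κ Q cf x).comp (ι p)‖ := by
  have hA := hb.one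
  have hA2 : 1 ≤ 2 * A := by linarith
  have hc := h.c0
  obtain ⟨K, δ, hK, hδ, hπ⟩ := h.uflat
  choose! π₀ hπ using hπ
  obtain ⟨D₁, hD₁, h1⟩ := gJet_bound (E := E) (W := Rd m) (c := c / 4) (by positivity) hA2
  obtain ⟨D₂, hD₂, h2⟩ := gJet_lip (E := E) (W := Rd m) (c := c / 4) (by positivity) hA2
  obtain ⟨d, hd, h3⟩ := gJet_inj (E := E) (W := Rd m) hc hA2
  have hDK := mul_nonneg hD₂ hK
  obtain ⟨η, hη, h4⟩ := g_lll E (ℂ × Rd m) (Rd (m + 1)) (ℂ × (Rd m →L[ℝ] ℂ))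
    (by simp only [Module.finrank_prod, finrank_real_complex, finrank_euclideanSpace_fin]; omega)
    d (K + D₁ + D₂ * K) hd
  refine ⟨η, 1 / δ, hη, fun κ hκ hκ₀ Q hQ hsep => ?_⟩
  have hδ' : 1 / κ ≤ δ := (one_div_le hκ hδ).2 hκ₀
  have ns : ∀ {F : Type} [NormedAddCommGroup F] [NormedSpace ℝ F] (u : F),
      ‖κ • u‖ = κ * ‖u‖ := fun u => by rw [norm_smul, Real.norm_of_nonneg hκ.le]
  have n1 : ∀ {x p : E}, ‖x - p‖ ≤ 1 / κ → κ * ‖x - p‖ ≤ 1 := fun hx => by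
    rwa [le_div_iff₀ hκ, mul_comm] at hx
  have n2 : ∀ {x p : E} (q : E), ‖x - p‖ ≤ 1 / κ → ‖κ • (x - q) - (κ • p - κ • q)‖ ≤ 1 :=
    fun q hx => by
      rw [← smul_sub, ← smul_sub, sub_sub_sub_cancel_right, ns]
      exact n1 hx
  have bι : ∀ p ∈ N, ‖ι p‖ ≤ 2 * A := fun p hp => by linarith [h.ιle p hp]
  have bw : ∀ q ∈ N, ∀ v : ℂ × Rd m, ‖v‖ ≤ 1 → ‖ι q v.2‖ ≤ 2 * A := fun q hq v hv =>
    ((ι q).le_of_opNorm_le_of_le (bι q hq) ((norm_snd_le v).trans hv)).trans_eq (mul_one _)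
  have bB : ∀ q ∈ N, ‖gB α g q‖ ≤ 2 * A := fun q hq => by linarith [hb.bB hq]
  have rB : ∀ q ∈ N, ∀ V, (gB α g q V V).re ≤ -(c / 4 * ‖V‖ ^ 2) := fun q hq V => by
    rw [gB_re]
    linarith [h.gp q hq V]
  obtain ⟨cf, hcf, h5⟩ := h4 E E Q (fun q => κ • q) (fun p => {x | x ∈ N ∧ ‖x - p‖ ≤ 1 / κ})
    (fun p x => κ • (π₀ p x - π₀ p p))
    (fun p q x v => gJet (gH α g q) (gB α g q) (κ • (α q - α p)) (-(κ ^ 2 * α p (q - p))) (ι p)
      v.1 (ι q v.2) (κ • (x - q)))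
    (fun p hp q hq hne => by
      have h6 := hsep p hp q hq hne
      rw [← smul_sub, ns, mul_comm]
      exact (div_le_iff₀ hκ).1 h6)
    (fun p hp x hx => by
      have h6 := (hπ p (hQ hp) x hx.1 p (hQ hp) (hx.2.trans hδ') (by simpa using hδ.le)).2
      have h7 := mul_le_mul_of_nonneg_left (n1 hx.2) hK
      have h8 := mul_le_mul_of_nonneg_left h6 hκ.le
      rw [ns]
      linarith)
    (fun p hp q hq x hx v hv => by
      refine (h1 _ _ _ _ _ _ _ _ _ (hb.bH (hQ hq)) (rB q (hQ hq)) (bι p (hQ hp))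
        ((norm_fst_le v).trans hv) (bw q (hQ hq) v hv) (n2 q hx.2)).trans ?_
      exact mul_le_mul_of_nonneg_right (by linarith) (Real.exp_pos _).le)
    (fun p hp q hq x hx y hy v hv => by
      have h6 : ‖κ • (α q - α p)‖ ≤ 2 * A * ‖κ • p - κ • q‖ := by
        have h7 := mul_le_mul_of_nonneg_left (hb.lip q (hQ hq) p (hQ hp)) hκ.le
        have h8 : 0 ≤ A * (κ * ‖q - p‖) := by positivity
        refine (ContinuousLinearMap.opNorm_smul_le _ _).trans ?_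
        rw [Real.norm_of_nonneg hκ.le, ← smul_sub, ns, norm_sub_rev p q]
        linarith
      refine (h2 _ _ _ _ _ _ _ _ _ _ (hb.bH (hQ hq)) (bB q (hQ hq)) (rB q (hQ hq)) h6
        (bι p (hQ hp)) ((norm_fst_le v).trans hv) (bw q (hQ hq) v hv) (n2 q hx.2)
        (n2 q hy.2)).trans ?_
      have h7 := (hπ p (hQ hp) x hx.1 y hy.1 (hx.2.trans hδ') (hy.2.trans hδ')).1
      rw [← smul_sub κ (x - q), ← smul_sub κ (π₀ p x - π₀ p p), sub_sub_sub_cancel_right,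
        sub_sub_sub_cancel_right, ns, ns]
      generalize Real.exp (-‖κ • p - κ • q‖) = t, Real.exp_pos (-‖κ • p - κ • q‖) = ht
      calc D₂ * t * (κ * ‖x - y‖) ≤ D₂ * t * (κ * (K * ‖π₀ p x - π₀ p y‖)) := by gcongr
        _ = D₂ * K * t * (κ * ‖π₀ p x - π₀ p y‖) := by ring
        _ ≤ _ := by gcongr; linarith)
    (fun p hp x hx v v' _ _ => by
      rw [← (gJet_lin _ _ _ _ _ (ι p) _).map_sub v v']
      exact h3 _ _ _ _ _ (v - v').1 (v - v').2 _ (hb.bH (hQ hp)) (bB p (hQ hp))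
        (fun V => by rw [gH, gCx_re]; exact h.gp p (hQ hp) V) (bι p (hQ hp)) (h.ιlo p (hQ hp))
        ((ns _).trans_le (n1 hx.2)))
  refine ⟨cf, hcf, fun p hp x hx hxp => ?_⟩
  have h6 := h5 p hp x ⟨hx, hxp⟩
  have h7 : ‖exp (-(I * (κ ^ 2 * α p (x - p) : ℝ)))‖ = 1 := by
    rw [norm_exp, neg_re, I_mul_re, ofReal_im, neg_zero, neg_zero, Real.exp_zero]
  rw [g_jet_sum, Prod.smul_mk, Prod.norm_mk, le_max_iff, norm_smul, h7, one_mul] at h6
  refine h6.imp_right fun h8 => h8.trans ((ContinuousLinearMap.opNorm_smul_le _ _).trans ?_)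
  rw [h7, one_mul]

end Pool.Agent.Lib.MP_ccffa6_gt
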