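import Pool.Agent.Lib.MP_ccffa6_gt.Defs

/-!
Block G: data and peak sections.
-/

open Set Filter Topology Complex
open scoped ContDiff

noncomputable section

namespace Pool.Agent.Lib.MP_ccffa6_gt

variable {E : Type} [NormedAddCommGroup E] [NormedSpace ℝ E]
  {W : Type} [NormedAddCommGroup W] [NormedSpace ℝ W]

/-- Complex valued real bilinear maps. -/
abbrev CBil (E : Type) [NormedAddCommGroup E] [NormedSpace ℝ E] : Type := E →L[ℝ] E →L[ℝ] ℂ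

/-- The map `g + i w`. -/
def gCx (g w : Bil E) : CBil E :=
  (ContinuousLinearMap.compL ℝ E ℝ ℂ ofRealCLM).comp g +
    I • (ContinuousLinearMap.compL ℝ E ℝ ℂ ofRealCLM).comp w

theorem gCx_apply (g w : Bil E) (u v : E) : gCx g w u v = (g u v : ℂ) + I * (w u v : ℂ) := by
  simp [gCx]

theorem gCx_re (g w : Bil E) (u v : E) : (gCx g w u v).re = g u v := by simp [gCx_apply]

theorem gCx_im (g w : Bil E) (u v : E) : (gCx g w u v).im = w u v := by simp [gCx_apply]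

theorem gCx_sub (g w g' w' : Bil E) : gCx g w - gCx g' w' = gCx (g - g') (w - w') := by
  ext u v
  simp only [sub_apply, gCx_apply]
  push_cast
  ring

theorem gCx_norm (g w : Bil E) : ‖gCx g w‖ ≤ ‖g‖ + ‖w‖ := by
  refine ContinuousLinearMap.opNorm_le_bound₂ _ (by positivity) fun u v => ?_
  rw [gCx_apply]
  refine (norm_add_le _ _).trans ?_
  rw [norm_mul, norm_I, one_mul, norm_real, norm_real, add_mul, add_mul]
  exact add_le_add (g.le_opNorm₂ u v) (w.le_opNorm₂ u v)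

/-- Data of block G: hyperplanes `ξ` of rank at least `m` along the compact set `N`, an ambient
metric `g` and complex structures `J` on `ξ` compatible with `dα`, projectors `P` onto `ξ`,
frames `ι`, and local bi-Lipschitz coordinates of dimension `m + 1`. -/
structure GD (m : ℕ) (N : Set E) (α : Form1 E) (ξ : E → Submodule ℝ E) (g : E → Bil E)
    (J P : E → E →L[ℝ] E) (ι : E → Rd m →L[ℝ] E) (c C : ℝ) : Prop where
  cpt : IsCompact N
  sm : ContDiff ℝ ∞ α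
  c0 : 0 < c
  cg : ContinuousOn g N
  cP : ContinuousOn P N
  gs : ∀ x ∈ N, ∀ u v, g x u v = g x v u
  gp : ∀ x ∈ N, ∀ u, c * ‖u‖ ^ 2 ≤ g x u u
  ker : ∀ x ∈ N, ∀ v ∈ ξ x, α x v = 0
  Jm : ∀ x ∈ N, ∀ v ∈ ξ x, J x v ∈ ξ x
  JJ : ∀ x ∈ N, ∀ v ∈ ξ x, J x (J x v) = -v
  gJ : ∀ x ∈ N, ∀ u, ∀ v ∈ ξ x, g x u v = dF α x u (J x v)
  Jle : ∀ x ∈ N, ‖J x‖ ≤ C
  Pm : ∀ x ∈ N, ∀ v, P x v ∈ ξ x
  Pid : ∀ x ∈ N, ∀ v ∈ ξ x, P x v = v
  ιm : ∀ x ∈ N, ∀ z, ι x z ∈ ξ x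
  ιlo : ∀ x ∈ N, ∀ z, c * ‖z‖ ≤ ‖ι x z‖
  ιle : ∀ x ∈ N, ‖ι x‖ ≤ C
  flat : ∀ p ∈ N, ∃ U ∈ 𝓝 p, ∃ (π : E → Rd (m + 1)) (K : ℝ), ∀ x ∈ N ∩ U, ∀ y ∈ N ∩ U,
    ‖x - y‖ ≤ K * ‖π x - π y‖ ∧ ‖π x - π y‖ ≤ K * ‖x - y‖

/-- Uniform bounds for `α` and `g` on `N`. -/
structure GB (N : Set E) (α : Form1 E) (g : E → Bil E) (A : ℝ) : Prop where
  one : 1 ≤ A
  bg : ∀ x ∈ N, ‖g x‖ ≤ A
  ba : ∀ x ∈ N, ‖fderiv ℝ α x‖ ≤ A
  bw : ∀ x ∈ N, ‖dF α x‖ ≤ A
  lip : ∀ x ∈ N, ∀ q ∈ N, ‖α x - α q‖ ≤ A * ‖x - q‖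
  tay : ∀ x ∈ N, ∀ q ∈ N, ‖α x - α q - fderiv ℝ α q (x - q)‖ ≤ A * ‖x - q‖ ^ 2

/-- The hermitian form `g + i dα` at `q`. -/
def gH (α : Form1 E) (g : E → Bil E) (q : E) : CBil E := gCx (g q) (dF α q)

/-- The quadratic part of the exponent at `q`. -/
def gB (α : Form1 E) (g : E → Bil E) (q : E) : CBil E :=
  gCx ((-1 / 4 : ℝ) • g q) ((1 / 2 : ℝ) • fderiv ℝ α q)

/-- The peak function centred at `q`, at scale `1 / κ`. -/
def gPk (α : Form1 E) (g : E → Bil E) (κ : ℝ) (q x : E) : ℂ :=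
  exp (I * (κ * α q (κ • (x - q)) : ℝ) + gB α g q (κ • (x - q)) (κ • (x - q)))

/-- The section with coefficient `(a, w)` centred at `q`. -/
def gSec (α : Form1 E) (g : E → Bil E) (κ : ℝ) (q : E) (a : ℂ) (w : E) (x : E) : ℂ :=
  (a + gH α g q w (κ • (x - q))) * gPk α g κ q x

/-- Model of the covariant derivative, without the peak function. -/
def gMod (H : CBil E) (a : ℂ) (w U : E) : E →L[ℝ] ℂ := H w - ((a + H w U) / 2) • H U

theorem gMod_apply (H : CBil E) (a : ℂ) (w U v : E) :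
    gMod H a w U v = H w v - (a + H w U) / 2 * H U v := by
  simp [gMod]

/-- The jet of one term in scaled variables. -/
def gJet (H B : CBil E) (β : E →L[ℝ] ℝ) (θ : ℝ) (j : W →L[ℝ] E) (a : ℂ) (w U : E) :
    ℂ × (W →L[ℝ] ℂ) :=
  exp (I * (θ + β U : ℝ) + B U U) • (a + H w U, (gMod H a w U).comp j)

/-- The section with centres `Q` and coefficients `cf`. -/
def gS {m : ℕ} (α : Form1 E) (g : E → Bil E) (ι : E → Rd m →L[ℝ] E) (κ : ℝ) (Q : Finset E)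
    (cf : E → ℂ × Rd m) (x : E) : ℂ :=
  ∑ q ∈ Q, gSec α g κ q (cf q).1 (ι q (cf q).2) x

/-- The model of its covariant derivative, divided by `κ`. -/
def gM {m : ℕ} (α : Form1 E) (g : E → Bil E) (ι : E → Rd m →L[ℝ] E) (κ : ℝ) (Q : Finset E)
    (cf : E → ℂ × Rd m) (x : E) : E →L[ℝ] ℂ :=
  ∑ q ∈ Q, gPk α g κ q x • gMod (gH α g q) (cf q).1 (ι q (cf q).2) (κ • (x - q))

theorem gH_apply (α : Form1 E) (g : E → Bil E) (q u v : E) :
    gH α g q u v = (g q u v : ℂ) + I * (dF α q u v : ℂ) := gCx_apply _ _ _ _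

theorem gB_apply (α : Form1 E) (g : E → Bil E) (q u v : E) :
    gB α g q u v = -(g q u v : ℂ) / 4 + I * (fderiv ℝ α q u v : ℂ) / 2 := by
  simp only [gB, gCx_apply, smul_apply, smul_eq_mul]
  push_cast
  ring

theorem gB_re (α : Form1 E) (g : E → Bil E) (q u v : E) : (gB α g q u v).re = -g q u v / 4 := by
  simp only [gB, gCx_re, smul_apply, smul_eq_mul]
  ring

theorem g_dF_apply (α : Form1 E) (x u v : E) :
    dF α x u v = fderiv ℝ α x u v - fderiv ℝ α x v u := by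
  simp [dF]

theorem g_dF_anti (α : Form1 E) (x u v : E) : dF α x u v = -dF α x v u := by
  simp [g_dF_apply]

theorem GB.bH {N : Set E} {α : Form1 E} {g : E → Bil E} {A : ℝ} (h : GB N α g A) {x : E}
    (hx : x ∈ N) : ‖gH α g x‖ ≤ 2 * A :=
  (gCx_norm _ _).trans (by linarith [h.bg x hx, h.bw x hx])

theorem GB.bB {N : Set E} {α : Form1 E} {g : E → Bil E} {A : ℝ} (h : GB N α g A) {x : E}
    (hx : x ∈ N) : ‖gB α g x‖ ≤ A := by
  refine (gCx_norm _ _).trans ?_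
  have h1 := h.bg x hx
  have h2 := h.ba x hx
  have h3 := h.one
  have h4 := ContinuousLinearMap.opNorm_smul_le (-1 / 4 : ℝ) (g x)
  have h5 := ContinuousLinearMap.opNorm_smul_le (1 / 2 : ℝ) (fderiv ℝ α x)
  have h6 : ‖(-1 / 4 : ℝ)‖ = 1 / 4 := by norm_num
  have h7 : ‖(1 / 2 : ℝ)‖ = 1 / 2 := by norm_num
  rw [h6] at h4
  rw [h7] at h5
  linarith

theorem gPk_norm (α : Form1 E) (g : E → Bil E) (κ : ℝ) (q x : E) :
    ‖gPk α g κ q x‖ = Real.exp (-g q (κ • (x - q)) (κ • (x - q)) / 4) := by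
  rw [gPk, norm_exp, add_re, gB_re]
  simp

end Pool.Agent.Lib.MP_ccffa6_gt
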