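import Pool.Agent.Lib.MP_ccffa6_gt.G.Term

/-!
Block G: derivative of one section.
-/

open Set Filter Topology Complex
open scoped ContDiff

noncomputable section

namespace Pool.Agent.Lib.MP_ccffa6_gt

variable {E : Type} [NormedAddCommGroup E] [NormedSpace ℝ E]
  {m : ℕ} {N : Set E} {α : Form1 E} {ξ : E → Submodule ℝ E} {g : E → Bil E}
  {J P : E → E →L[ℝ] E} {ι : E → Rd m →L[ℝ] E} {c C A : ℝ}

theorem gSec_smooth (α : Form1 E) (g : E → Bil E) (κ : ℝ) (q : E) (a : ℂ) (w : E) :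
    ContDiff ℝ ∞ (gSec α g κ q a w) := by
  have h : ContDiff ℝ ∞ fun x : E => κ • (x - q) := (contDiff_id.sub contDiff_const).const_smul κ
  exact (contDiff_const.add ((gH α g q w).contDiff.comp h)).mul (ContDiff.cexp ((contDiff_const.mul
    (ofRealCLM.contDiff.comp (contDiff_const.mul ((α q).contDiff.comp h)))).add
      (((gB α g q).contDiff.comp h).clm_apply h)))

theorem gSec_fderiv (α : Form1 E) (g : E → Bil E) (κ : ℝ) (q : E) (a : ℂ) (w x v : E) :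
    fderiv ℝ (gSec α g κ q a w) x v = κ * gPk α g κ q x * (gH α g q w v +
      (a + gH α g q w (κ • (x - q))) * (I * (κ * α q v : ℝ) + gB α g q (κ • (x - q)) v +
        gB α g q v (κ • (x - q)))) := by
  have h := ((hasFDerivAt_id (𝕜 := ℝ) x).sub_const q).const_smul κ
  have h1 := (((gH α g q w).hasFDerivAt.comp x h).const_add a).mul (HasFDerivAt.cexp
    (((ofRealCLM.hasFDerivAt.comp x (((α q).hasFDerivAt.comp x h).const_mul κ)).const_mul I).add
      (((gB α g q).hasFDerivAt.comp x h).clm_apply h)))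
  refine (congrArg (· v) h1.fderiv).trans ?_
  simp [gPk]
  ring

theorem GD.pk_le (h : GD m N α ξ g J P ι c C) {q : E} (hq : q ∈ N) (κ : ℝ) (x : E) :
    ‖gPk α g κ q x‖ ≤ Real.exp (-(c / 4 * ‖κ • (x - q)‖ ^ 2)) := by
  rw [gPk_norm]
  exact Real.exp_le_exp.2 (by linarith [h.gp q hq (κ • (x - q))])

/-- The covariant derivative is the model up to a bounded error. -/
theorem GD.der_a (h : GD m N α ξ g J P ι c C) (hb : GB N α g A) :
    ∃ D : ℝ, 0 ≤ D ∧ ∀ κ : ℝ, 0 < κ → ∀ x ∈ N, ∀ q ∈ N, ∀ (a : ℂ) (w v : E), ‖a‖ ≤ 1 → ‖w‖ ≤ A →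
      ‖fderiv ℝ (gSec α g κ q a w) x v - I * κ ^ 2 * α x v * gSec α g κ q a w x -
        κ * (gPk α g κ q x * gMod (gH α g q) a w (κ • (x - q)) v)‖ ≤
        D * Real.exp (-‖κ • (x - q)‖) * ‖v‖ := by
  obtain ⟨D, hD, h1⟩ := g_gauss (c := c / 4) (by linarith [h.c0]) 3
  have hA := hb.one
  refine ⟨2 * A ^ 3 * D, by positivity, fun κ hκ x hx q hq a w v ha hw => ?_⟩
  have e : fderiv ℝ (gSec α g κ q a w) x v - I * κ ^ 2 * α x v * gSec α g κ q a w x -
      κ * (gPk α g κ q x * gMod (gH α g q) a w (κ • (x - q)) v) =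
      -I * ((a + gH α g q w (κ • (x - q))) * (κ ^ 2 * (α x - α q - fderiv ℝ α q (x - q)) v : ℝ) *
        gPk α g κ q x) := by
    rw [gSec_fderiv, gSec, gMod_apply, gB_apply, gB_apply, gH_apply α g q (κ • (x - q)),
      g_dF_apply, h.gs q hq v, map_smul (fderiv ℝ α q), smul_apply, sub_apply, sub_apply,
      smul_eq_mul]
    push_cast
    ring
  have t0 := norm_nonneg (κ • (x - q))
  have v0 := norm_nonneg v
  have h2 : ‖a + gH α g q w (κ • (x - q))‖ ≤ 2 * A ^ 2 * (1 + ‖κ • (x - q)‖) := by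
    have := (gH α g q).le_opNorm₂ w (κ • (x - q))
    have : ‖gH α g q‖ * ‖w‖ * ‖κ • (x - q)‖ ≤ 2 * A * A * ‖κ • (x - q)‖ := by
      gcongr
      exact hb.bH hq
    nlinarith [norm_add_le a (gH α g q w (κ • (x - q)))]
  have h3 : ‖κ ^ 2 * (α x - α q - fderiv ℝ α q (x - q)) v‖ ≤ A * (1 + ‖κ • (x - q)‖) ^ 2 * ‖v‖ :=
    calc _ ≤ κ ^ 2 * (A * ‖x - q‖ ^ 2 * ‖v‖) := by
          rw [norm_mul, Real.norm_of_nonneg (sq_nonneg κ)]
          gcongr
          exact ContinuousLinearMap.le_of_opNorm_le _ (hb.tay x hx q hq) v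
      _ = A * ‖κ • (x - q)‖ ^ 2 * ‖v‖ := by
          rw [norm_smul, Real.norm_of_nonneg hκ.le]
          ring
      _ ≤ _ := by
          gcongr
          exact le_add_of_nonneg_left zero_le_one
  rw [e, norm_mul, norm_neg, norm_I, one_mul, norm_mul, norm_mul, norm_real]
  calc _ ≤ 2 * A ^ 2 * (1 + ‖κ • (x - q)‖) * (A * (1 + ‖κ • (x - q)‖) ^ 2 * ‖v‖) *
        Real.exp (-(c / 4 * ‖κ • (x - q)‖ ^ 2)) := by
        gcongr
        exact h.pk_le hq κ x
    _ = 2 * A ^ 3 * ((1 + ‖κ • (x - q)‖) ^ 3 * Real.exp (-(c / 4 * ‖κ • (x - q)‖ ^ 2))) * ‖v‖ := by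
        ring
    _ ≤ 2 * A ^ 3 * (D * Real.exp (-‖κ • (x - q)‖)) * ‖v‖ := by
        gcongr _ * ?_ * _
        exact h1 _ t0
    _ = _ := by ring

end Pool.Agent.Lib.MP_ccffa6_gt
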