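import Pool.Agent.Lib.MP_ccffa6_gt.G.Der

/-!
Block G: size and complex linearity of the model.
-/

open Set Filter Topology Complex
open scoped ContDiff

noncomputable section

namespace Pool.Agent.Lib.MP_ccffa6_gt

variable {E : Type} [NormedAddCommGroup E] [NormedSpace ℝ E]
  {m : ℕ} {N : Set E} {α : Form1 E} {ξ : E → Submodule ℝ E} {g : E → Bil E}
  {J P : E → E →L[ℝ] E} {ι : E → Rd m →L[ℝ] E} {c C A : ℝ}

theorem GD.der_b (h : GD m N α ξ g J P ι c C) (hb : GB N α g A) :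
    ∃ D : ℝ, 0 ≤ D ∧ ∀ κ : ℝ, ∀ x, ∀ q ∈ N, ∀ (a : ℂ) (w : E), ‖a‖ ≤ 1 → ‖w‖ ≤ A →
      ‖gPk α g κ q x • gMod (gH α g q) a w (κ • (x - q))‖ ≤ D * Real.exp (-‖κ • (x - q)‖) := by
  have hA := hb.one
  obtain ⟨D, h0, hD⟩ := g_gauss (c := c / 4) (by linarith [h.c0]) 2
  refine ⟨2 * (2 * A) ^ 3 * D, by positivity, fun κ x q hq a w ha hw => ?_⟩
  refine (ContinuousLinearMap.opNorm_smul_le _ _).trans ((mul_le_mul (h.pk_le hq κ x)
    (gMod_norm (by linarith) (hb.bH hq) ha (by linarith) _) (norm_nonneg _)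
    (Real.exp_pos _).le).trans ?_)
  rw [mul_comm, mul_assoc, mul_assoc _ D]
  exact mul_le_mul_of_nonneg_left (hD _ (norm_nonneg _)) (by positivity)

/-- `gH x u` is complex linear on `ξ x`. -/
theorem GD.holo (h : GD m N α ξ g J P ι c C) {x : E} (hx : x ∈ N) (u : E) {v : E} (hv : v ∈ ξ x) :
    gH α g x u (J x v) = I * gH α g x u v := by
  rw [gH_apply, gH_apply, h.gJ x hx u _ (h.Jm x hx v hv), h.JJ x hx v hv, h.gJ x hx u v hv, map_neg,
    mul_add, ← mul_assoc, I_mul_I]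
  push_cast
  ring

/-- The model is almost complex linear. -/
theorem GD.der_c (h : GD m N α ξ g J P ι c C) (hb : GB N α g A) (hC : C ≤ A) :
    ∃ D : ℝ, 0 ≤ D ∧ ∀ κ ε A' : ℝ, 0 < κ → 0 ≤ ε → 0 ≤ A' → ∀ x ∈ N, ∀ q ∈ N,
      ‖gH α g x - gH α g q‖ ≤ ε + A' * ‖x - q‖ ^ 2 → ∀ (a : ℂ) (w : E), ‖a‖ ≤ 1 → ‖w‖ ≤ A →
      ∀ v ∈ ξ x, ‖gPk α g κ q x * (gMod (gH α g q) a w (κ • (x - q)) (J x v) -
        I * gMod (gH α g q) a w (κ • (x - q)) v)‖ ≤
        D * (ε + A' / κ ^ 2) * Real.exp (-‖κ • (x - q)‖) * ‖v‖ := by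
  have hA := hb.one
  obtain ⟨D, h0, hD⟩ := g_gauss (c := c / 4) (by linarith [h.c0]) 4
  refine ⟨2 * A ^ 3 * D, by positivity, fun κ ε A' hκ hε hA' x hx q hq hH a w ha hw v hv => ?_⟩
  have h1 := h.pk_le hq κ x
  have h2 : ‖x - q‖ ^ 2 = ‖κ • (x - q)‖ ^ 2 / κ ^ 2 := by
    rw [norm_smul, Real.norm_eq_abs, mul_pow, sq_abs]
    field_simp
  rw [h2] at hH
  generalize κ • (x - q) = U at h1 hH ⊢
  obtain ⟨δ, hδ⟩ : ∃ δ, δ = ε + A' / κ ^ 2 := ⟨_, rfl⟩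
  have hU := norm_nonneg U
  have hδ0 : 0 ≤ δ := by rw [hδ]; positivity
  have h3 : ‖gH α g x - gH α g q‖ ≤ δ * (1 + ‖U‖) ^ 2 := hH.trans (by
    have e : 0 ≤ A' / κ ^ 2 := by positivity
    rw [hδ, ← mul_div_assoc, mul_div_right_comm]
    nlinarith [mul_nonneg hε hU, mul_nonneg e hU, mul_nonneg hε (sq_nonneg ‖U‖)])
  have h4 : ∀ u, ‖gH α g q u (J x v) - I * gH α g q u v‖ ≤
      2 * A * (δ * (1 + ‖U‖) ^ 2) * ‖v‖ * ‖u‖ := fun u => by
    have e : gH α g q u (J x v) - I * gH α g q u v =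
        I * (gH α g x - gH α g q) u v - (gH α g x - gH α g q) u (J x v) := by
      simp only [sub_apply, h.holo hx u hv]
      ring
    have e1 : ‖J x v‖ ≤ A * ‖v‖ := (J x).le_of_opNorm_le ((h.Jle x hx).trans hC) v
    have e2 : ‖v‖ ≤ A * ‖v‖ := le_mul_of_one_le_left (norm_nonneg _) hA
    have e3 : ∀ z, ‖z‖ ≤ A * ‖v‖ → ‖(gH α g x - gH α g q) u z‖ ≤
        δ * (1 + ‖U‖) ^ 2 * ‖u‖ * (A * ‖v‖) := fun z hz =>
      (ContinuousLinearMap.le_opNorm₂ _ u z).trans (by gcongr)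
    rw [e]
    refine (norm_sub_le _ _).trans ?_
    rw [norm_mul, norm_I, one_mul]
    linarith [e3 _ e1, e3 _ e2]
  have h5 : ‖(a + gH α g q w U) / 2‖ ≤ (1 + 2 * A * A * ‖U‖) / 2 := by
    have e := hb.bH hq
    rw [norm_div, Complex.norm_two]
    exact div_le_div_of_nonneg_right ((norm_add_le _ _).trans (add_le_add ha
      ((ContinuousLinearMap.le_opNorm₂ _ w U).trans (by gcongr)))) zero_le_two
  have h6 : ‖gMod (gH α g q) a w U (J x v) - I * gMod (gH α g q) a w U v‖ ≤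
      2 * A * (δ * (1 + ‖U‖) ^ 2) * ‖v‖ * (A ^ 2 * (1 + ‖U‖) ^ 2) := by
    have e : gMod (gH α g q) a w U (J x v) - I * gMod (gH α g q) a w U v =
        (gH α g q w (J x v) - I * gH α g q w v) -
          (a + gH α g q w U) / 2 * (gH α g q U (J x v) - I * gH α g q U v) := by
      simp only [gMod_apply]
      ring
    rw [e]
    refine (norm_sub_le _ _).trans ?_
    rw [norm_mul]
    refine (add_le_add (h4 w) (mul_le_mul h5 (h4 U) (norm_nonneg _) (by positivity))).trans ?_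
    rw [mul_left_comm ((1 + 2 * A * A * ‖U‖) / 2), ← mul_add]
    refine mul_le_mul_of_nonneg_left ?_ (by positivity)
    have e1 : 1 ≤ A ^ 2 := one_le_pow₀ hA
    nlinarith [mul_le_mul_of_nonneg_right e1 hU]
  rw [norm_mul, ← hδ]
  refine (mul_le_mul h1 h6 (norm_nonneg _) (Real.exp_pos _).le).trans ?_
  have h7 := mul_le_mul_of_nonneg_left (hD _ hU) (show 0 ≤ 2 * A ^ 3 * δ * ‖v‖ by positivity)
  linarith

end Pool.Agent.Lib.MP_ccffa6_gt
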