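import Pool.Agent.Lib.MP_ccffa6_gt.G.Lin

/-!
Block G: compatible complex structures, general case.
-/

open Set Filter Topology Complex
open scoped ContDiff

noncomputable section

namespace Pool.Agent.Lib.MP_ccffa6_gt

/-- Pull-back of a bilinear form. -/
def glin2_pull {E F : Type} [NormedAddCommGroup E] [NormedSpace ℝ E] [NormedAddCommGroup F]
    [NormedSpace ℝ F] (a : F →L[ℝ] E) (w : Bil E) : Bil F :=
  ((ContinuousLinearMap.compL ℝ F E ℝ).flip a).comp (w.comp a)

theorem glin2_pull_apply {E F : Type} [NormedAddCommGroup E] [NormedSpace ℝ E]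
    [NormedAddCommGroup F] [NormedSpace ℝ F] (a : F →L[ℝ] E) (w : Bil E) (u v : F) :
    glin2_pull a w u v = w (a u) (a v) := by
  simp [glin2_pull]

theorem glin2_pull_cont {E F : Type} [NormedAddCommGroup E] [NormedSpace ℝ E]
    [NormedAddCommGroup F] [NormedSpace ℝ F] (a : F →L[ℝ] E) {X : Type} [TopologicalSpace X]
    {N : Set X} {w : X → Bil E} (cw : ContinuousOn w N) :
    ContinuousOn (fun x => glin2_pull a (w x)) N :=
  continuousOn_const.clm_comp (cw.clm_comp continuousOn_const)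

/-- General case, by transport along `toEuclidean`. -/
theorem g_lin {E : Type} [NormedAddCommGroup E] [NormedSpace ℝ E] [FiniteDimensional ℝ E]
    {X : Type} [TopologicalSpace X] {N : Set X}
    (ξ : X → Submodule ℝ E) (P : X → E →L[ℝ] E) (w : X → Bil E)
    (cP : ContinuousOn P N) (Pm : ∀ x ∈ N, ∀ v, P x v ∈ ξ x)
    (Pid : ∀ x ∈ N, ∀ v ∈ ξ x, P x v = v) (cw : ContinuousOn w N)
    (wa : ∀ x ∈ N, ∀ u v, w x u v = -w x v u)
    (wn : ∀ x ∈ N, ∀ u ∈ ξ x, (∀ v ∈ ξ x, w x u v = 0) → u = 0) :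
    ∃ (g : X → Bil E) (J : X → E →L[ℝ] E), ContinuousOn g N ∧ ContinuousOn J N ∧
      ∀ x ∈ N, (∀ u v, g x u v = g x v u) ∧ (∀ u, u ≠ 0 → 0 < g x u u) ∧
        (∀ v ∈ ξ x, J x v ∈ ξ x) ∧ (∀ v ∈ ξ x, J x (J x v) = -v) ∧
        ∀ u, ∀ v ∈ ξ x, g x u v = w x u (J x v) := by
  let e : E ≃L[ℝ] Rd (Module.finrank ℝ E) := toEuclidean
  let a : E →L[ℝ] Rd (Module.finrank ℝ E) := e
  let b : Rd (Module.finrank ℝ E) →L[ℝ] E := e.symm
  have hab : ∀ u, a (b u) = u := e.apply_symm_apply
  have hba : ∀ u, b (a u) = u := e.symm_apply_apply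
  obtain ⟨g, J, cg, cJ, h⟩ := g_lin_euc (N := N) (fun x => (ξ x).comap b.toLinearMap)
    (fun x => a.comp ((P x).comp b)) (fun x => glin2_pull b (w x))
    (continuousOn_const.clm_comp (cP.clm_comp continuousOn_const))
    (fun x hx v => by
      show b (a (P x (b v))) ∈ ξ x
      rw [hba]
      exact Pm x hx _)
    (fun x hx v hv => by
      show a (P x (b v)) = v
      rw [Pid x hx (b v) hv, hab])
    (glin2_pull_cont b cw)
    (fun x hx u v => by
      simp only [glin2_pull_apply]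
      exact wa x hx _ _)
    (fun x hx u hu h => by
      have h1 : b u = 0 := wn x hx _ hu fun v hv => by
        have h2 := h (a v) (by
          show b (a v) ∈ ξ x
          rwa [hba])
        rwa [glin2_pull_apply, hba] at h2
      rw [← hab u, h1, map_zero])
  refine ⟨fun x => glin2_pull a (g x), fun x => b.comp ((J x).comp a), glin2_pull_cont a cg,
    continuousOn_const.clm_comp (cJ.clm_comp continuousOn_const), fun x hx => ?_⟩
  obtain ⟨h1, h2, h3, h4, h5⟩ := h x hx
  have hm : ∀ v ∈ ξ x, a v ∈ (ξ x).comap b.toLinearMap := fun v hv => by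
    show b (a v) ∈ ξ x
    rwa [hba]
  refine ⟨fun u v => ?_, fun u hu => ?_, fun v hv => h3 _ (hm v hv), fun v hv => ?_,
    fun u v hv => ?_⟩
  · simp only [glin2_pull_apply]
    exact h1 _ _
  · simp only [glin2_pull_apply]
    refine h2 _ fun h0 => hu ?_
    rw [← hba u, h0, map_zero]
  · show b (J x (a (b (J x (a v))))) = -v
    rw [hab, h4 _ (hm v hv), map_neg, hba]
  · simp only [glin2_pull_apply]
    rw [h5 _ _ (hm v hv), glin2_pull_apply, hba]
    rfl

end Pool.Agent.Lib.MP_ccffa6_gt
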