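import Pool.Agent.Lib.MP_ccffa6_gt.G.Data
import Pool.Agent.Lib.MP_ccffa6_gt.G.Lin2
import Pool.Agent.Lib.MP_ccffa6_gt.K.Forms
import Pool.Agent.Lib.MP_ccffa6_gt.K.Proj

/-!
Block G: the data of a closed contact manifold.
-/

open Set Filter Topology Complex
open scoped ContDiff

noncomputable section

namespace Pool.Agent.Lib.MP_ccffa6_gt

variable {E : Type} [NormedAddCommGroup E] [NormedSpace ℝ E]
  [FiniteDimensional ℝ E]

/-- The contact hyperplane. -/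
def gXi (N : Set E) (α : Form1 E) (x : E) : Submodule ℝ E :=
  Tan N x ⊓ LinearMap.ker (α x : E →ₗ[ℝ] ℝ)

omit [FiniteDimensional ℝ E] in
theorem mem_gXi {N : Set E} {α : Form1 E} {x v : E} :
    v ∈ gXi N α x ↔ v ∈ Tan N x ∧ α x v = 0 := Iff.rfl

/-- Charts give local bi-Lipschitz coordinates. -/
theorem g_flat {d : ℕ} {N : Set E} (h : IsSub d N) :
    ∀ p ∈ N, ∃ U ∈ 𝓝 p, ∃ (π : E → Rd d) (K : ℝ), ∀ x ∈ N ∩ U, ∀ y ∈ N ∩ U,
      ‖x - y‖ ≤ K * ‖π x - π y‖ ∧ ‖π x - π y‖ ≤ K * ‖x - y‖ := by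
  intro p hp
  obtain ⟨φ, ψ, c⟩ := h p hp
  obtain ⟨K₁, s, hs, l₁⟩ := (c.smφ.contDiffAt (x := ψ p)).of_le (m := 1) (by simp)
    |>.exists_lipschitzOnWith
  obtain ⟨K₂, t, ht, l₂⟩ := (c.smψ.contDiffAt (x := p)).of_le (m := 1) (by simp)
    |>.exists_lipschitzOnWith
  refine ⟨_, inter_mem (eventually_nhdsWithin_iff.1 c.left) (inter_mem ht
    (c.smψ.continuous.continuousAt.preimage_mem_nhds hs)), ψ, K₁ + K₂, fun x hx y hy => ⟨?_, ?_⟩⟩
  · have := l₁.norm_sub_le hx.2.2.2 hy.2.2.2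
    rw [hx.2.1 hx.1, hy.2.1 hy.1] at this
    exact this.trans (by gcongr; simp)
  · exact (l₂.norm_sub_le hx.2.2.1 hy.2.2.1).trans (by gcongr; simp)

theorem gman_rank {n : ℕ} {N : Set E} {α : Form1 E} (h : CMan n N α) {x R : E} (hx : x ∈ N)
    (hR : IsReeb N α x R) : Module.finrank ℝ (gXi N α x) = 2 * n := by
  have h1 : gXi N α x ⊔ Submodule.span ℝ {R} = Tan N x := by
    refine le_antisymm (sup_le inf_le_left ((Submodule.span_singleton_le_iff_mem _ _).2 hR.1))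
      fun v hv => Submodule.mem_sup.2 ⟨v - α x v • R, mem_gXi.2 ⟨sub_mem hv
        (Submodule.smul_mem _ _ hR.1), by simp [hR.2.1]⟩, α x v • R,
        Submodule.smul_mem _ _ (Submodule.mem_span_singleton_self R), sub_add_cancel _ _⟩
  have h2 := Submodule.finrank_sup_span_singleton (p := gXi N α x) (v := R) fun e =>
    one_ne_zero (hR.2.1.symm.trans (mem_gXi.1 e).2)
  rw [h1, h.cl.sub.finrank hx] at h2
  omega

/-- The data. -/
theorem g_data {n : ℕ} {N : Set E} {α : Form1 E} (h : CMan n N α) :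
    ∃ (g : E → Bil E) (J P : E → E →L[ℝ] E) (ι : E → Rd (2 * n) →L[ℝ] E) (c C : ℝ),
      GD (2 * n) N α (gXi N α) g J P ι c C ∧ ∀ x ∈ N, ∀ R, IsReeb N α x R → ‖R‖ ≤ C := by
  have hN := h.cl.cpt
  obtain ⟨T, U, hT, -, hU, t⟩ := h.cl.sub.exists_proj hN subset_rfl
  obtain ⟨R, hR, r⟩ := h.exists_reeb
  let P : E → E →L[ℝ] E := fun x => T x - ((α x).comp (T x)).smulRight (R x)
  have cP : ContinuousOn P N := continuousOn_clm_apply.2 fun v => by
    have := hT.continuous.clm_apply (continuous_const (y := v))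
    exact (this.sub ((h.sm.continuous.clm_apply this).smul hR.continuous)).continuousOn
  have Pm : ∀ x ∈ N, ∀ v, P x v ∈ gXi N α x := fun x hx v => mem_gXi.2
    ⟨sub_mem ((t x ⟨hx, hU hx⟩).1 v) (Submodule.smul_mem _ _ (r x hx).1), by
      simp [P, (r x hx).2.1]⟩
  have Pid : ∀ x ∈ N, ∀ v ∈ gXi N α x, P x v = v := fun x hx v hv => by
    simp [P, (t x ⟨hx, hU hx⟩).2 v hv.1, (mem_gXi.1 hv).2]
  obtain ⟨g, J, cg, cJ, hg⟩ := g_lin (gXi N α) P (dF α) cP Pm Pid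
    (contDiff_dF h.sm).continuous.continuousOn (fun x _ => g_dF_anti α x) fun x hx u hu e =>
      (nd_symz_iff.1 (h.nd x hx)).2 u hu.1 hu.2 fun v h1 h2 => e v ⟨h1, h2⟩
  obtain ⟨c₁, hc₁, gp⟩ := g_unif_pos hN cg fun x hx => (hg x hx).2.1
  obtain ⟨c₂, C₂, hc₂, fr⟩ := g_frame E (2 * n)
  choose! ι hι using fun x hx => fr _ (gman_rank h hx (r x hx))
  obtain ⟨C₁, hC₁⟩ := hN.exists_bound_of_continuousOn cJ
  obtain ⟨C₃, hC₃⟩ := hN.exists_bound_of_continuousOn hR.continuous.continuousOn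
  refine ⟨g, J, P, ι, min c₁ c₂, max C₁ (max C₂ C₃), ⟨hN, h.sm, lt_min hc₁ hc₂, cg, cP,
    fun x hx => (hg x hx).1, fun x hx u => ?_, fun x _ v hv => hv.2, fun x hx => (hg x hx).2.2.1,
    fun x hx => (hg x hx).2.2.2.1, fun x hx => (hg x hx).2.2.2.2,
    fun x hx => (hC₁ x hx).trans (le_max_left _ _), Pm, Pid, fun x hx => (hι x hx).1,
    fun x hx z => ?_, fun x hx => (hι x hx).2.2.trans (le_max_of_le_right (le_max_left _ _)),
    g_flat h.cl.sub⟩, fun x hx S hS => ?_⟩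
  · exact (mul_le_mul_of_nonneg_right (min_le_left _ _) (sq_nonneg _)).trans (gp x hx u)
  · exact (mul_le_mul_of_nonneg_right (min_le_right _ _) (norm_nonneg _)).trans ((hι x hx).2.1 z)
  · rw [h.reeb_unique hx hS (r x hx)]
    exact (hC₃ x hx).trans (le_max_of_le_right (le_max_right _ _))

end Pool.Agent.Lib.MP_ccffa6_gt
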