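import Pool.Agent.Lib.MP_ccffa6_gt.G.Quant
import Pool.Agent.Lib.MP_ccffa6_gt.G.Man

/-!
Block G: from the estimates to the open book inequalities.
-/

open Set Filter Topology Complex
open scoped ContDiff

noncomputable section

namespace Pool.Agent.Lib.MP_ccffa6_gt

variable {E : Type} [NormedAddCommGroup E] [NormedSpace ℝ E]

/-- Pointwise algebra. -/
theorem g_lam {T : Submodule ℝ E} {g w : Bil E} {J : E →L[ℝ] E} {c A e : ℝ} {l : E →L[ℝ] ℂ}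
    {X₁ X₂ : E} (hA : 1 ≤ A) (wa : ∀ u v, w u v = -w v u) (gs : ∀ u v, g u v = g v u)
    (gp : ∀ u, c * ‖u‖ ^ 2 ≤ g u u) (Jm : ∀ v ∈ T, J v ∈ T)
    (gJ : ∀ u, ∀ v ∈ T, g u v = w u (J v)) (hJ : ‖J‖ ≤ A) (hw : ‖w‖ ≤ A)
    (he : ∀ v ∈ T, ‖l (J v) - I * l v‖ ≤ e * ‖v‖) (m₂ : X₂ ∈ T)
    (h₁ : ∀ v ∈ T, w X₁ v = (l v).re) (h₂ : ∀ v ∈ T, w X₂ v = (l v).im) :
    c * ‖X₂‖ ^ 2 - e * ‖X₂‖ ≤ w X₁ X₂ ∧ ∀ v ∈ T, ‖l v‖ ≤ (2 * A ^ 2 * ‖X₂‖ + e) * ‖v‖ := by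
  have k : ∀ v ∈ T, |(l v).re - w X₂ (J v)| ≤ e * ‖v‖ := fun v hv => by
    refine le_trans (le_of_eq ?_) ((abs_im_le_norm _).trans (he v hv))
    rw [h₂ _ (Jm v hv), abs_sub_comm]
    simp
  refine ⟨?_, fun v hv => ?_⟩
  · have h1 := abs_le.1 (k _ m₂)
    have h2 := gp X₂
    rw [gJ _ _ m₂] at h2
    rw [h₁ _ m₂]
    linarith [h1.1]
  · have hA0 : 0 ≤ A := zero_le_one.trans hA
    have h1 : ∀ u, |w X₂ u| ≤ A * ‖X₂‖ * ‖u‖ := fun u =>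
      (w.le_opNorm₂ X₂ u).trans (by gcongr)
    have h2 : |w X₂ (J v)| ≤ A * ‖X₂‖ * (A * ‖v‖) :=
      (h1 _).trans (by gcongr; exact (J.le_opNorm v).trans (by gcongr))
    have h3 := abs_sub_abs_le_abs_sub (l v).re (w X₂ (J v))
    have h4 := h1 v
    have h5 := norm_le_abs_re_add_abs_im (l v)
    rw [h₂ v hv] at h4
    have h6 : 0 ≤ (A - 1) * (A * ‖X₂‖ * ‖v‖) := mul_nonneg (sub_nonneg.2 hA) (by positivity)
    linarith [k v hv]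

theorem gfin_num {c A D η : ℝ} (hc : 0 < c) (hA : 1 ≤ A) (hD : 0 ≤ D) (hη : 0 < η) :
    ∃ ε K : ℝ, 0 < ε ∧ ∀ κ σ t Th Lam : ℝ, K ≤ κ → 0 < κ → 0 ≤ σ → 0 ≤ t →
      κ ^ 2 * σ ^ 2 - σ * (D * κ * A) ≤ Th → c * t ^ 2 - ε * κ * t ≤ Lam →
      (η ≤ σ ∨ η * κ ≤ (2 * A ^ 2 * t + ε * κ) * D) →
      (σ ≤ η / 2 → 0 < Lam) ∧ (η / 2 / 2 ≤ σ → 0 < Th) ∧ 0 < Th + 2 * Lam := by
  have hA0 : 0 < A := one_pos.trans_le hA
  obtain ⟨τ, hτ, eτ⟩ : ∃ τ : ℝ, 0 < τ ∧ τ * (4 * A ^ 2 * (D + 1)) = η :=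
    ⟨η / (4 * A ^ 2 * (D + 1)), by positivity, div_mul_cancel₀ _ (by positivity)⟩
  obtain ⟨ε, hε, e1, e2, e3, e4⟩ : ∃ ε : ℝ, 0 < ε ∧ ε * (2 * (D + 1)) ≤ η ∧ ε ≤ c * τ / 2 ∧ ε ≤ η ∧
      ε ≤ c * η / 2 :=
    ⟨min (η / (2 * (D + 1))) (min (c * τ / 2) (min η (c * η / 2))), by positivity,
      (le_div_iff₀ (by positivity)).1 (min_le_left _ _), (min_le_right _ _).trans (min_le_left _ _),
      (min_le_right _ _).trans ((min_le_right _ _).trans (min_le_left _ _)),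
      (min_le_right _ _).trans ((min_le_right _ _).trans (min_le_right _ _))⟩
  refine ⟨ε, max (4 * D * A / η) (η * D * A / (c * τ ^ 2)) + 1, hε,
    fun κ σ t Th Lam hK hκ hσ ht h1 h2 h3 => ?_⟩
  have k1 : 4 * D * A < κ * η :=
    (div_lt_iff₀ hη).1 (((le_max_left _ _).trans_lt (lt_add_one _)).trans_le hK)
  have k2 : η * D * A < κ * (c * τ ^ 2) :=
    (div_lt_iff₀ (by positivity)).1 (((le_max_right _ _).trans_lt (lt_add_one _)).trans_le hK)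
  have hDA : 0 ≤ D * A := by positivity
  have a1 : σ < η → c * τ ^ 2 * κ ^ 2 ≤ 2 * Lam := fun h => by
    have b1 := h3.resolve_left h.not_ge
    have b2 : ε * κ * D ≤ η * κ / 2 := by
      linarith [mul_le_mul_of_nonneg_right e1 hκ.le, mul_pos hε hκ]
    have b3 : τ * κ ≤ t := by
      refine le_of_mul_le_mul_right ?_ (show 0 < 4 * A ^ 2 * (D + 1) by positivity)
      have : 0 ≤ A ^ 2 * t := by positivity
      rw [mul_right_comm, eτ]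
      linarith
    have b4 : ε * κ * t ≤ c * t / 2 * t := by
      refine mul_le_mul_of_nonneg_right ?_ ht
      linarith [mul_le_mul_of_nonneg_left b3 hc.le, mul_le_mul_of_nonneg_right e2 hκ.le]
    have b5 : c * (τ * κ) ^ 2 ≤ c * t ^ 2 := by gcongr
    linarith
  have a2 : η / 2 / 2 ≤ σ → 0 < Th := fun h => by
    have b1 : 0 < κ * σ := mul_pos hκ (by linarith)
    have b2 : 0 < κ * σ - D * A := by linarith [mul_le_mul_of_nonneg_left h hκ.le]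
    linarith [mul_pos b1 b2]
  refine ⟨fun h => ?_, a2, ?_⟩
  · have := a1 (by linarith)
    have : 0 < c * τ ^ 2 * κ ^ 2 := by positivity
    linarith
  rcases lt_or_ge σ η with h | h
  · have b1 := a1 h
    have b2 : σ * (D * κ * A) ≤ η * (D * κ * A) := by gcongr
    have b3 := mul_lt_mul_of_pos_left k2 hκ
    linarith [sq_nonneg (κ * σ)]
  · have b1 : κ * η ≤ κ * σ := by gcongr
    have b0 : 0 < κ * η := by positivity
    have b2 : (κ * η) ^ 2 / 2 ≤ Th := by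
      linarith [mul_le_mul b1 (show κ * η / 2 ≤ κ * σ - D * A by linarith) (half_pos b0).le
        (b0.le.trans b1)]
    have b3 : ε ^ 2 ≤ c * η ^ 2 / 2 := by linarith [mul_le_mul e3 e4 hε.le hη.le]
    have b4 : -((κ * η) ^ 2 / 8) ≤ Lam := by
      refine le_trans (le_of_mul_le_mul_left ?_ hc) h2
      linarith [sq_nonneg (2 * c * t - ε * κ), mul_le_mul_of_nonneg_right b3 (sq_nonneg κ)]
    linarith [sq_pos_of_pos b0]

variable [FiniteDimensional ℝ E]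

/-- The open book inequalities. -/
theorem g_final {m : ℕ} {N : Set E} {α : Form1 E} {g : E → Bil E} {J P : E → E →L[ℝ] E}
    {ι : E → Rd m →L[ℝ] E} {c C : ℝ} (h : GD m N α (gXi N α) g J P ι c C)
    (hR : ∀ x ∈ N, ∀ R, IsReeb N α x R → ‖R‖ ≤ C) : ∃ (s : E → ℂ) (η : ℝ), OB N α s η := by
  obtain ⟨η, D, hη, hD, hq⟩ := h.quant
  obtain ⟨A, hA, hC⟩ := h.bounds
  obtain ⟨ε, K, hε, hn⟩ := gfin_num h.c0 hA.one hD hη
  obtain ⟨κ, s, hK, hκ, hs, hx⟩ := hq ε K hε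
  refine ⟨s, η / 2, hs, half_pos hη, fun x m R X₁ X₂ r h₁ h₂ => ?_⟩
  obtain ⟨k1, k2, k3⟩ := hx x m
  obtain ⟨l1, l2⟩ := g_lam (T := gXi N α x) (X₁ := X₁) hA.one (g_dF_anti α x) (h.gs x m) (h.gp x m)
    (h.Jm x m) (h.gJ x m) ((h.Jle x m).trans hC) (hA.bw x m) k2 ⟨h₂.1, h₂.2.1⟩
    (fun v hv => h₁.2.2 v hv.1 hv.2) fun v hv => h₂.2.2 v hv.1 hv.2
  refine hn κ ‖s x‖ ‖X₂‖ _ _ hK hκ (norm_nonneg _) (norm_nonneg _) ?_ l1
    (k3.imp_right fun ⟨v, hv, b1, b2⟩ => b2.trans ((l2 v hv).trans (by gcongr)))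
  have b1 := k1 R
  rw [r.2.1] at b1
  have b2 : ‖(starRingEnd ℂ) (s x) * (fderiv ℝ s x R - I * κ ^ 2 * (1 : ℝ) * s x)‖ ≤
      ‖s x‖ * (D * κ * A) := by
    rw [norm_mul, RCLike.norm_conj]
    exact mul_le_mul_of_nonneg_left (b1.trans (by gcongr; exact (hR x m R r).trans hC))
      (norm_nonneg _)
  have b3 := (abs_le.1 ((abs_im_le_norm _).trans b2)).1
  have b4 : ((starRingEnd ℂ) (s x) * (I * κ ^ 2 * (1 : ℝ) * s x)).im = κ ^ 2 * ‖s x‖ ^ 2 := by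
    rw [Complex.sq_norm, normSq_apply, ← ofReal_pow]
    simp only [mul_im, mul_re, conj_re, conj_im, I_re, I_im, ofReal_re, ofReal_im]
    ring
  rw [mul_sub, sub_im, b4] at b3
  linarith

end Pool.Agent.Lib.MP_ccffa6_gt
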