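import Pool.Agent.Lib.MP_ccffa6_gt.G.Sqrt

/-!
Block G: compatible complex structures in continuous families.
-/

open Set Filter Topology Complex
open scoped ContDiff InnerProductSpace

noncomputable section

namespace Pool.Agent.Lib.MP_ccffa6_gt

theorem glin_ring {R : Type} [Ring R] [StarRing R] {O T A S Si J Q : R} (hO : O * O = O)
    (sO : star O = O) (sT : star T = -T) (sS : star S = S) (hA : A = O * T * O)
    (hSS : S * S = star A * A + (1 - O)) (h1 : S * Si = 1) (h2 : Si * S = 1)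
    (cA : Commute A S) (cO : Commute O S) (hJ : J = A * Si) (hQ : Q = -(Si * J * T)) :
    O * J = J ∧ J * J * O = -O ∧ Q * O = O ∧ star Q * S * Q * O = -(T * J * O) := by
  have sA : star A = -A := by
    rw [hA, star_mul, star_mul, sO, sT]
    noncomm_ring
  have OA : O * A = A := by rw [hA, ← mul_assoc, ← mul_assoc, hO]
  have AO : A * O = A := by rw [hA, mul_assoc, hO]
  have inv : ∀ X : R, Commute X S → X * Si = Si * X := fun X h => by
    calc X * Si = Si * S * X * Si := by rw [h2, one_mul]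
      _ = Si * (X * S) * Si := by rw [h.eq, mul_assoc Si]
      _ = Si * X := by rw [mul_assoc, mul_assoc, h1, mul_one]
  have iA := inv A cA
  have iO := inv O cO
  have sSi : star Si = Si := by
    have : star Si * S = 1 := by rw [← sS, ← star_mul, h1, star_one]
    calc star Si = star Si * (S * Si) := by rw [h1, mul_one]
      _ = Si := by rw [← mul_assoc, this, one_mul]
  have AA : A * A = -(S * S * O) := by
    rw [hSS, sA, add_mul, sub_mul, hO, one_mul, sub_self, add_zero, mul_assoc, AO, neg_mul,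
      neg_neg]
  have sJ : star J = -J := by rw [hJ, star_mul, sSi, sA, mul_neg, iA]
  have QO : Q * O = O := by
    have e : J * T * O = Si * (A * A) := by
      rw [hJ, iA]
      calc Si * A * T * O = Si * (A * O * T * O) := by rw [AO]; noncomm_ring
        _ = Si * (A * A) := by
          congr 1
          conv_rhs => rw [hA]
          rw [← hA]
          conv_rhs => enter [2]; rw [hA]
          noncomm_ring
    calc Q * O = -(Si * (J * T * O)) := by rw [hQ]; noncomm_ring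
      _ = Si * (Si * S) * S * O := by rw [e, AA]; noncomm_ring
      _ = O := by rw [h2, mul_one, h2, one_mul]
  refine ⟨by rw [hJ, ← mul_assoc, OA], ?_, QO, ?_⟩
  · calc J * J * O = Si * (A * A) * (Si * O) := by
          rw [hJ]
          conv_lhs => enter [1, 1]; rw [iA]
          noncomm_ring
      _ = -(Si * S * (S * (O * Si)) * O) := by rw [AA]; noncomm_ring
      _ = -O := by rw [h2, one_mul, iO, ← mul_assoc S, h1, one_mul, hO]
  · have sQ : star Q = -(T * J * Si) := by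
      rw [hQ, star_neg, star_mul, star_mul, sT, sJ, sSi]
      noncomm_ring
    calc star Q * S * Q * O = -(T * J * (Si * S) * (Q * O)) := by rw [sQ]; noncomm_ring
      _ = -(T * J * O) := by rw [h2, mul_one, QO]

theorem glin_comm {R : Type} [Ring R] [StarRing R] {O T A : R} (hO : O * O = O)
    (sO : star O = O) (sT : star T = -T) (hA : A = O * T * O) :
    Commute A (star A * A + (1 - O)) ∧ Commute O (star A * A + (1 - O)) := by
  have sA : star A = -A := by
    rw [hA, star_mul, star_mul, sO, sT]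
    noncomm_ring
  have OA : O * A = A := by rw [hA, ← mul_assoc, ← mul_assoc, hO]
  have AO : A * O = A := by rw [hA, mul_assoc, hO]
  constructor
  · change A * (star A * A + (1 - O)) = (star A * A + (1 - O)) * A
    rw [sA, mul_add, add_mul, mul_sub, sub_mul, OA, AO]
    noncomm_ring
  · change O * (star A * A + (1 - O)) = (star A * A + (1 - O)) * O
    rw [sA, mul_add, add_mul, mul_sub, sub_mul, mul_assoc, AO, ← mul_assoc, mul_neg, OA]
    noncomm_ring

theorem glin_compl {R : Type} [Ring R] [StarRing R] {O : R} (hO : O * O = O) (sO : star O = O) :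
    star (1 - O) * (1 - O) = 1 - O := by
  rw [star_sub, star_one, sO, sub_mul, one_mul, mul_sub, mul_one, hO, sub_self, sub_zero]

/-- Euclidean case. -/
theorem g_lin_euc {L : ℕ} {X : Type} [TopologicalSpace X] {N : Set X}
    (ξ : X → Submodule ℝ (Rd L)) (P : X → Rd L →L[ℝ] Rd L) (w : X → Bil (Rd L))
    (cP : ContinuousOn P N) (Pm : ∀ x ∈ N, ∀ v, P x v ∈ ξ x)
    (Pid : ∀ x ∈ N, ∀ v ∈ ξ x, P x v = v) (cw : ContinuousOn w N)
    (wa : ∀ x ∈ N, ∀ u v, w x u v = -w x v u)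
    (wn : ∀ x ∈ N, ∀ u ∈ ξ x, (∀ v ∈ ξ x, w x u v = 0) → u = 0) :
    ∃ (g : X → Bil (Rd L)) (J : X → Rd L →L[ℝ] Rd L), ContinuousOn g N ∧ ContinuousOn J N ∧
      ∀ x ∈ N, (∀ u v, g x u v = g x v u) ∧ (∀ u, u ≠ 0 → 0 < g x u u) ∧
        (∀ v ∈ ξ x, J x v ∈ ξ x) ∧ (∀ v ∈ ξ x, J x (J x v) = -v) ∧
        ∀ u, ∀ v ∈ ξ x, g x u v = w x u (J x v) := by
  obtain ⟨Sq, hSc, hSq⟩ := g_sqrt L
  let ip : Rd L →L[ℝ] Rd L →L[ℝ] ℝ := innerSL ℝ
  have ip_apply : ∀ u v, ip u v = ⟪u, v⟫_ℝ := fun _ _ => rfl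
  let dI : (Rd L →L[ℝ] ℝ) →L[ℝ] Rd L :=
    (InnerProductSpace.toDual ℝ (Rd L)).symm.toContinuousLinearEquiv.toContinuousLinearMap
  have dI_apply : ∀ f v, ⟪dI f, v⟫_ℝ = f v := fun f v => InnerProductSpace.toDual_symm_apply
  obtain ⟨O, hO⟩ : ∃ O : X → Rd L →L[ℝ] Rd L, O = fun x => (ξ x).starProjection := ⟨_, rfl⟩
  obtain ⟨T, hT⟩ : ∃ T : X → Rd L →L[ℝ] Rd L, T = fun x => dI.comp (w x) := ⟨_, rfl⟩
  obtain ⟨A, hA⟩ : ∃ A : X → Rd L →L[ℝ] Rd L, A = fun x => O x * T x * O x := ⟨_, rfl⟩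
  obtain ⟨B, hB⟩ : ∃ B : X → Rd L →L[ℝ] Rd L, B = fun x => star (A x) * A x + (1 - O x) :=
    ⟨_, rfl⟩
  obtain ⟨Si, hSi⟩ : ∃ Si : X → Rd L →L[ℝ] Rd L, Si = fun x => Ring.inverse (Sq (B x)) :=
    ⟨_, rfl⟩
  obtain ⟨J, hJ⟩ : ∃ J : X → Rd L →L[ℝ] Rd L, J = fun x => A x * Si x := ⟨_, rfl⟩
  obtain ⟨Q, hQ⟩ : ∃ Q : X → Rd L →L[ℝ] Rd L, Q = fun x => -(Si x * J x * T x) := ⟨_, rfl⟩
  have Tin : ∀ x u v, ⟪T x u, v⟫_ℝ = w x u v := fun x u v => by rw [hT]; exact dI_apply _ _
  have OO : ∀ x, O x * O x = O x := fun x => by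
    rw [hO]; exact (ξ x).isIdempotentElem_starProjection
  have sO : ∀ x, star (O x) = O x := fun x => by rw [hO]; exact isSelfAdjoint_starProjection _
  have Om : ∀ x v, O x v ∈ ξ x := fun x v => by rw [hO]; exact (ξ x).starProjection_apply_mem v
  have Oid : ∀ x, ∀ v ∈ ξ x, O x v = v := fun x v hv => by
    rw [hO]; exact Submodule.starProjection_eq_self_iff.2 hv
  have adj : ∀ (F : Rd L →L[ℝ] Rd L) u v, ⟪star F u, v⟫_ℝ = ⟪u, F v⟫_ℝ := fun F u v =>
    ContinuousLinearMap.adjoint_inner_left F v u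
  have sT : ∀ x ∈ N, star (T x) = -T x := fun x hx => by
    ext1 u
    refine ext_inner_right ℝ fun v => ?_
    rw [adj, real_inner_comm, Tin, wa x hx, neg_apply, inner_neg_left, Tin]
  have hP : ∀ x u v, ⟪(1 - O x) u, v⟫_ℝ = ⟪(1 - O x) u, (1 - O x) v⟫_ℝ := fun x u v => by
    have e : star (1 - O x) * (1 - O x) = 1 - O x := glin_compl (OO x) (sO x)
    rw [← adj (1 - O x) _ v, ← mul_apply_eq_comp, e]
  have Bin : ∀ x u v, ⟪B x u, v⟫_ℝ = ⟪A x u, A x v⟫_ℝ + ⟪(1 - O x) u, (1 - O x) v⟫_ℝ :=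
    fun x u v => by
      rw [hB]
      simp only [add_apply, inner_add_left]
      rw [mul_apply_eq_comp, adj, hP]
  have Bpos : ∀ x, (B x).IsPositive := fun x => by
    refine (ContinuousLinearMap.isPositive_iff _).2 ⟨fun u v => ?_, fun u => ?_⟩
    · change ⟪B x u, v⟫_ℝ = ⟪u, B x v⟫_ℝ
      rw [real_inner_comm (B x v), Bin, Bin, real_inner_comm (A x v), real_inner_comm ((1 - O x) v)]
    · rw [Bin]
      exact add_nonneg real_inner_self_nonneg real_inner_self_nonneg
  have mem : ∀ x u, ⟪(1 - O x) u, (1 - O x) u⟫_ℝ ≤ 0 → O x u = u := fun x u h => by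
    have := inner_self_eq_zero.1 (le_antisymm h real_inner_self_nonneg)
    rw [sub_apply, one_apply_eq_self, sub_eq_zero] at this
    exact this.symm
  have Sinj : ∀ x ∈ N, ∀ u, Sq (B x) u = 0 → u = 0 := fun x hx u hu => by
    have h0 : B x u = 0 := by
      rw [← (hSq _ (Bpos x)).2.1, mul_apply_eq_comp, hu, map_zero]
    have h1 := Bin x u u
    rw [h0, inner_zero_left] at h1
    have h2 : 0 ≤ ⟪A x u, A x u⟫_ℝ := real_inner_self_nonneg
    have h3 : 0 ≤ ⟪(1 - O x) u, (1 - O x) u⟫_ℝ := real_inner_self_nonneg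
    have h4 := mem x u (by linarith)
    have h5 : A x u = 0 := inner_self_eq_zero.1 (by linarith : ⟪A x u, A x u⟫_ℝ = 0)
    refine wn x hx u (h4 ▸ Om x u) fun v hv => ?_
    have h6 : ⟪A x u, v⟫_ℝ = w x u v := by
      rw [hA]
      simp only [mul_apply_eq_comp]
      rw [h4, ← sO, adj, Oid x v hv, Tin]
    rw [← h6, h5, inner_zero_left]
  have Sun : ∀ x ∈ N, IsUnit (Sq (B x)) := fun x hx => by
    have hi : Function.Injective (Sq (B x)) :=
      (injective_iff_map_eq_zero _).2 (Sinj x hx)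
    exact ContinuousLinearMap.isUnit_iff_bijective.2
      ⟨hi, (LinearMap.injective_iff_surjective (f := (Sq (B x) : Rd L →ₗ[ℝ] Rd L))).1 hi⟩
  have cst : ∀ {F : X → Rd L →L[ℝ] Rd L}, ContinuousOn F N → ContinuousOn (fun x => star (F x)) N :=
    fun h => ContinuousLinearMap.adjoint.continuous.comp_continuousOn h
  have cO : ContinuousOn O N := hO ▸ g_orth ξ P cP Pm Pid
  have cT : ContinuousOn T N := hT ▸ continuousOn_const.clm_comp cw
  have cA : ContinuousOn A N := hA ▸ (cO.mul cT).mul cO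
  have cB : ContinuousOn B N := hB ▸ ((cst cA).mul cA).add (continuousOn_const.sub cO)
  have cS : ContinuousOn (fun x => Sq (B x)) N := hSc.comp cB fun x _ => Bpos x
  have cSi : ContinuousOn Si N := by
    rw [hSi]
    intro x hx
    obtain ⟨u, hu⟩ := Sun x hx
    have := NormedRing.inverse_continuousAt u
    rw [hu] at this
    exact ContinuousAt.comp_continuousWithinAt (f := fun x => Sq (B x)) this (cS x hx)
  have cJ : ContinuousOn J N := hJ ▸ cA.mul cSi
  have cQ : ContinuousOn Q N := hQ ▸ ((cSi.mul cJ).mul cT).neg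
  refine ⟨fun x => ip.comp (star (Q x) * Sq (B x) * Q x + (1 - O x)), J,
    continuousOn_const.clm_comp ((((cst cQ).mul cS).mul cQ).add (continuousOn_const.sub cO)), cJ,
    fun x hx => ?_⟩
  obtain ⟨Sp, SS, Sc⟩ := hSq _ (Bpos x)
  have sS : star (Sq (B x)) = Sq (B x) := Sp.isSelfAdjoint
  obtain ⟨c1, c2⟩ := glin_comm (A := A x) (OO x) (sO x) (sT x hx) (by rw [hA])
  have eB : star (A x) * A x + (1 - O x) = B x := by rw [hB]
  rw [eB] at c1 c2
  obtain ⟨r1, r2, r3, r4⟩ := glin_ring (O := O x) (T := T x) (A := A x) (S := Sq (B x))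
    (Si := Si x) (J := J x) (Q := Q x) (OO x) (sO x) (sT x hx) sS (by rw [hA])
    (by rw [SS, hB]) (by rw [hSi]; exact Ring.mul_inverse_cancel _ (Sun x hx))
    (by rw [hSi]; exact Ring.inverse_mul_cancel _ (Sun x hx)) (Sc _ c1) (Sc _ c2) (by rw [hJ])
    (by rw [hQ])
  have gin : ∀ u v, (ip.comp (star (Q x) * Sq (B x) * Q x + (1 - O x))) u v =
      ⟪Sq (B x) (Q x u), Q x v⟫_ℝ + ⟪(1 - O x) u, (1 - O x) v⟫_ℝ := fun u v => by
    rw [ContinuousLinearMap.comp_apply, ip_apply, add_apply, inner_add_left, hP, mul_assoc,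
      mul_apply_eq_comp, adj, mul_apply_eq_comp]
  have gsy : ∀ u v, (ip.comp (star (Q x) * Sq (B x) * Q x + (1 - O x))) u v =
      (ip.comp (star (Q x) * Sq (B x) * Q x + (1 - O x))) v u := fun u v => by
    rw [gin, gin, real_inner_comm ((1 - O x) v), ← sS, adj, sS, real_inner_comm]
  refine ⟨gsy, fun u hu => ?_, fun v _ => ?_, fun v hv => ?_, fun u v hv => ?_⟩
  · rw [gin]
    have h2 : 0 ≤ ⟪Sq (B x) (Q x u), Q x u⟫_ℝ := Sp.inner_nonneg_left _
    have h3 : 0 ≤ ⟪(1 - O x) u, (1 - O x) u⟫_ℝ := real_inner_self_nonneg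
    by_contra hc
    have h4 := mem x u (by linarith)
    have h5 : Q x u = u := by rw [← h4, ← mul_apply_eq_comp, r3]
    rw [h5] at h2 hc
    obtain ⟨Rp, RR, -⟩ := hSq _ Sp
    have sR : star (Sq (Sq (B x))) = Sq (Sq (B x)) := Rp.isSelfAdjoint
    have h6 : ⟪Sq (B x) u, u⟫_ℝ = ⟪Sq (Sq (B x)) u, Sq (Sq (B x)) u⟫_ℝ := by
      rw [← adj, sR, ← mul_apply_eq_comp, RR]
    have h7 : Sq (Sq (B x)) u = 0 := inner_self_eq_zero.1 (by linarith : ⟪_, _⟫_ℝ = (0 : ℝ))
    refine hu (Sinj x hx u ?_)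
    rw [← RR, mul_apply_eq_comp, h7, map_zero]
  · rw [← r1]
    exact Om x _
  · have := congrArg (fun F : Rd L →L[ℝ] Rd L => F v) r2
    simpa only [mul_apply_eq_comp, neg_apply, Oid x v hv] using this
  · have := congrArg (fun F : Rd L →L[ℝ] Rd L => F v) r4
    simp only [mul_apply_eq_comp, neg_apply, Oid x v hv] at this
    rw [gsy, ContinuousLinearMap.comp_apply, ip_apply, add_apply, sub_apply,
      one_apply_eq_self, Oid x v hv, sub_self, add_zero]
    simp only [mul_apply_eq_comp]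
    rw [this, inner_neg_left, Tin, wa x hx, neg_neg]

end Pool.Agent.Lib.MP_ccffa6_gt
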