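import Pool.Agent.Lib.MP_ccffa6_gt.G.Sum
import Pool.Agent.Lib.MP_ccffa6_gt.G.App

/-!
Block G: approximately holomorphic sections, uniformly transverse to zero.
-/

open Set Filter Topology Complex
open scoped ContDiff

noncomputable section

namespace Pool.Agent.Lib.MP_ccffa6_gt

variable {E : Type} [NormedAddCommGroup E] [NormedSpace ℝ E]
  [FiniteDimensional ℝ E]
  {m : ℕ} {N : Set E} {α : Form1 E} {ξ : E → Submodule ℝ E} {g : E → Bil E}
  {J P : E → E →L[ℝ] E} {ι : E → Rd m →L[ℝ] E} {c C A : ℝ}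

/-- Approximately holomorphic sections that are uniformly transverse to zero. -/
theorem GD.quant (h : GD m N α ξ g J P ι c C) :
    ∃ η D : ℝ, 0 < η ∧ 0 ≤ D ∧ ∀ ε K : ℝ, 0 < ε → ∃ (κ : ℝ) (s : E → ℂ), K ≤ κ ∧ 0 < κ ∧
      ContDiff ℝ ∞ s ∧ ∀ x ∈ N,
      (∀ v, ‖fderiv ℝ s x v - I * κ ^ 2 * α x v * s x‖ ≤ D * κ * ‖v‖) ∧
      (∀ v ∈ ξ x, ‖fderiv ℝ s x (J x v) - I * fderiv ℝ s x v‖ ≤ ε * κ * ‖v‖) ∧
      (η ≤ ‖s x‖ ∨ ∃ v ∈ ξ x, ‖v‖ ≤ D ∧ η * κ ≤ ‖fderiv ℝ s x v‖) := by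
  obtain ⟨A, hb, hC⟩ := h.bounds
  obtain ⟨D, hD, hs⟩ := h.sum_est hb hC
  obtain ⟨η, κ₀, hη, ha⟩ := h.app hb hC
  have hA := hb.one
  have hDA : 0 ≤ D * A := by positivity
  obtain ⟨δ, hδ, hP⟩ := h.modP (ε := min 1 (η / 8 / (D * A + 1))) (by positivity)
  refine ⟨η / 8, 2 * D + 2 * A, by positivity, by positivity, fun ε K hε => ?_⟩
  obtain ⟨A', hA', hH⟩ := h.modH (ε := ε / 2 / (D + 1)) (by positivity)
  obtain ⟨κ, k1, k2, k3, k4, k5, k6⟩ := ((eventually_ge_atTop K).and ((eventually_ge_atTop 1).and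
    ((eventually_ge_atTop κ₀).and ((eventually_ge_atTop (1 / δ)).and
    ((eventually_ge_atTop ((D * A + D + D * A') / (ε / 2))).and
    (eventually_ge_atTop (2 * (D * A) / (η / 4)))))))).exists
  have k0 : 0 < κ := by linarith
  rw [div_le_iff₀ (by positivity)] at k5 k6
  obtain ⟨Q, q1, q2, q3⟩ := g_net h.cpt (one_div_pos.2 k0)
  obtain ⟨cf, c1, c2⟩ := ha κ k0 k3 Q q1 q2
  refine ⟨κ, gS α g ι κ Q cf, k1, k0, gS_smooth _ _ _ _ _ _, fun x hx => ?_⟩
  obtain ⟨s1, s2, s3⟩ := hs κ k0 Q cf q1 q2 c1 x hx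
  obtain ⟨p, hp, hxp⟩ := q3 x hx
  have c3 := c2 p hp x hx hxp
  replace s3 := s3 _ A' (by positivity) hA' (hH x hx)
  generalize fderiv ℝ (gS α g ι κ Q cf) x = T at s1 ⊢
  generalize gM α g ι κ Q cf x = M at s1 s2 s3 c3
  generalize gS α g ι κ Q cf x = S at s1 c3 ⊢
  have hκ : ∀ w : ℂ, ‖κ * w‖ = κ * ‖w‖ := fun w => by
    rw [norm_mul, norm_real, Real.norm_of_nonneg k0.le]
  have hM : ∀ v, ‖M v‖ ≤ D * ‖v‖ := M.le_of_opNorm_le s2
  have s4 : ∀ v ∈ ξ x, ‖T v - κ * M v‖ ≤ D * ‖v‖ := fun v hv => by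
    simpa [h.ker x hx v hv] using s1 v
  refine ⟨fun v => ?_, fun v hv => ?_, c3.imp (fun e => by linarith) fun e => ?_⟩
  · have a1 := norm_add_le (T v - I * κ ^ 2 * α x v * S - κ * M v) (κ * M v)
    rw [sub_add_cancel, hκ] at a1
    have a2 := mul_le_mul_of_nonneg_left (hM v) k0.le
    have a3 := le_mul_of_one_le_left (by positivity : 0 ≤ D * ‖v‖) k2
    have a4 : 0 ≤ A * κ * ‖v‖ := by positivity
    linarith [s1 v]
  · have e : T (J x v) - I * T v = T (J x v) - κ * M (J x v) - I * (T v - κ * M v) +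
        κ * (M (J x v) - I * M v) := by ring
    have a1 := norm_add_le (T (J x v) - κ * M (J x v) - I * (T v - κ * M v))
      (κ * (M (J x v) - I * M v))
    have a2 := norm_sub_le (T (J x v) - κ * M (J x v)) (I * (T v - κ * M v))
    rw [norm_mul, norm_I, one_mul] at a2
    rw [← e, hκ] at a1
    have a3 := mul_le_mul_of_nonneg_left ((J x).le_of_opNorm_le ((h.Jle x hx).trans hC) v) hD
    have a4 : κ * (D * (ε / 2 / (D + 1) + A' / κ ^ 2)) ≤ ε / 2 * κ + D * A' := by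
      have b1 : D * (ε / 2 / (D + 1)) ≤ ε / 2 := by
        rw [← mul_div_assoc, div_le_iff₀ (by positivity)]
        linarith
      have b2 : κ * (A' / κ ^ 2) ≤ A' := by
        rw [← mul_div_assoc, div_le_iff₀ (by positivity)]
        nlinarith [mul_nonneg hA' k0.le]
      nlinarith [mul_le_mul_of_nonneg_left b1 k0.le, mul_le_mul_of_nonneg_left b2 hD]
    have a5 := mul_le_mul_of_nonneg_left (s3 v hv) k0.le
    have a6 := mul_le_mul_of_nonneg_right a4 (norm_nonneg v)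
    have a7 := mul_le_mul_of_nonneg_right k5 (norm_nonneg v)
    linarith [s4 v hv, s4 _ (h.Jm x hx v hv)]
  · obtain ⟨z, z1, z2⟩ := (M.comp (ι p)).exists_lt_apply_of_lt_opNorm
      (r := η / 2) (by linarith)
    have hu : ‖ι p z‖ ≤ A := ((ι p).le_of_opNorm_le ((h.ιle p (q1 hp)).trans hC) z).trans
      (mul_le_of_le_one_right (by linarith) z1.le)
    have hu' := h.Pid p (q1 hp) _ (h.ιm p (q1 hp) z)
    rw [ContinuousLinearMap.comp_apply] at z2
    generalize ι p z = u at z2 hu hu'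
    have a1 : ‖P x u - u‖ ≤ min 1 (η / 8 / (D * A + 1)) * A := by
      have := (P x - P p).le_of_opNorm_le_of_le
        (hP x hx p (q1 hp) (hxp.trans ((one_div_le hδ k0).1 k4))) hu
      rwa [sub_apply, hu'] at this
    have a2 : ‖P x u‖ ≤ 2 * A := by
      have := norm_add_le (P x u - u) u
      rw [sub_add_cancel] at this
      nlinarith [min_le_left 1 (η / 8 / (D * A + 1))]
    have a3 : ‖M (P x u) - M u‖ ≤ η / 8 := by
      rw [← map_sub]
      have b1 := (le_div_iff₀ (by positivity)).1 (min_le_right 1 (η / 8 / (D * A + 1)))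
      have b2 : 0 ≤ min 1 (η / 8 / (D * A + 1)) := by positivity
      nlinarith [hM (P x u - u), mul_le_mul_of_nonneg_left a1 hD]
    have a4 := norm_sub_le (M (P x u)) (M (P x u) - M u)
    have a5 := norm_sub_le (T (P x u)) (T (P x u) - κ * M (P x u))
    rw [sub_sub_cancel] at a4 a5
    rw [hκ] at a5
    have a6 := mul_le_mul_of_nonneg_left (by linarith : 3 * η / 8 ≤ ‖M (P x u)‖) k0.le
    refine ⟨P x u, h.Pm x hx u, by linarith, ?_⟩
    linarith [s4 _ (h.Pm x hx u), mul_le_mul_of_nonneg_left a2 hD]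

end Pool.Agent.Lib.MP_ccffa6_gt
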