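import Pool.Agent.Lib.MP_ccffa6_gt.G.Der2
import Pool.Agent.Lib.MP_ccffa6_gt.G.Lll

/-!
Block G: estimates for the sum of the sections.
-/

open Set Filter Topology Complex
open scoped ContDiff

noncomputable section

namespace Pool.Agent.Lib.MP_ccffa6_gt

variable {E : Type} [NormedAddCommGroup E] [NormedSpace ℝ E]
  [FiniteDimensional ℝ E]
  {m : ℕ} {N : Set E} {α : Form1 E} {ξ : E → Submodule ℝ E} {g : E → Bil E}
  {J P : E → E →L[ℝ] E} {ι : E → Rd m →L[ℝ] E} {c C A : ℝ}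

theorem gsum_le {X F : Type} [SeminormedAddCommGroup F] {Q : Finset X} {f : X → F} {e : X → ℝ}
    {a C₀ : ℝ} (ha : 0 ≤ a) (h : ∀ q ∈ Q, ‖f q‖ ≤ a * e q) (hs : ∑ q ∈ Q, e q ≤ C₀) :
    ‖∑ q ∈ Q, f q‖ ≤ a * C₀ := by
  refine (norm_sum_le _ _).trans ((Finset.sum_le_sum h).trans ?_)
  rw [← Finset.mul_sum]
  exact mul_le_mul_of_nonneg_left hs ha

omit [FiniteDimensional ℝ E] in
theorem gS_smooth (α : Form1 E) (g : E → Bil E) (ι : E → Rd m →L[ℝ] E) (κ : ℝ) (Q : Finset E)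
    (cf : E → ℂ × Rd m) : ContDiff ℝ ∞ (gS α g ι κ Q cf) := by
  exact ContDiff.sum fun q _ => gSec_smooth α g κ q _ _

/-- Sum the estimates of `Der` with `g_sum_exp` for `pos q = κ • q` at the point `κ • x`. -/
theorem GD.sum_est (h : GD m N α ξ g J P ι c C) (hb : GB N α g A) (hC : C ≤ A) :
    ∃ D : ℝ, 0 ≤ D ∧ ∀ κ : ℝ, 0 < κ → ∀ (Q : Finset E) (cf : E → ℂ × Rd m), ↑Q ⊆ N →
      (∀ p ∈ Q, ∀ q ∈ Q, p ≠ q → 1 / κ ≤ ‖p - q‖) → (∀ q, ‖cf q‖ ≤ 1) → ∀ x ∈ N,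
      (∀ v, ‖fderiv ℝ (gS α g ι κ Q cf) x v - I * κ ^ 2 * α x v * gS α g ι κ Q cf x -
        κ * gM α g ι κ Q cf x v‖ ≤ D * ‖v‖) ∧ ‖gM α g ι κ Q cf x‖ ≤ D ∧
      ∀ ε A' : ℝ, 0 ≤ ε → 0 ≤ A' →
        (∀ q ∈ N, ‖gH α g x - gH α g q‖ ≤ ε + A' * ‖x - q‖ ^ 2) → ∀ v ∈ ξ x,
        ‖gM α g ι κ Q cf x (J x v) - I * gM α g ι κ Q cf x v‖ ≤ D * (ε + A' / κ ^ 2) * ‖v‖ := by
  obtain ⟨D₁, h₁, e₁⟩ := h.der_a hb
  obtain ⟨D₂, h₂, e₂⟩ := h.der_b hb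
  obtain ⟨D₃, h₃, e₃⟩ := h.der_c hb hC
  obtain ⟨C₀, hC₀⟩ := g_sum_exp E
  have h0 : 0 ≤ C₀ := by simpa using hC₀ E ∅ id (by simp) 0
  refine ⟨(D₁ + D₂ + D₃) * C₀, by positivity, fun κ hκ Q cf hQ hs hcf x hx => ?_⟩
  have hsum : ∑ q ∈ Q, Real.exp (-‖κ • (x - q)‖) ≤ C₀ := by
    simp only [smul_sub]
    refine hC₀ E Q (fun q => κ • q) (fun p hp q hq hpq => ?_) (κ • x)
    rw [← smul_sub, norm_smul, Real.norm_of_nonneg hκ.le, mul_comm]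
    exact (div_le_iff₀ hκ).1 (hs p hp q hq hpq)
  have ha : ∀ q, ‖(cf q).1‖ ≤ 1 := fun q => (norm_fst_le _).trans (hcf q)
  have hw : ∀ q ∈ Q, ‖ι q (cf q).2‖ ≤ A := fun q hq => ((ι q).le_opNorm _).trans <|
    (mul_le_mul ((h.ιle q (hQ hq)).trans hC) ((norm_snd_le _).trans (hcf q)) (norm_nonneg _)
      (zero_le_one.trans hb.one)).trans_eq (mul_one A)
  refine ⟨fun v => ?_, ?_, fun ε A' hε hA hH v hv => ?_⟩
  · have e : fderiv ℝ (gS α g ι κ Q cf) x =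
        ∑ q ∈ Q, fderiv ℝ (gSec α g κ q (cf q).1 (ι q (cf q).2)) x :=
      fderiv_fun_sum fun q _ => (gSec_smooth α g κ q _ _).differentiable (by simp) x
    rw [e, gS, gM, sum_apply, sum_apply, Finset.mul_sum, Finset.mul_sum, ← Finset.sum_sub_distrib,
      ← Finset.sum_sub_distrib]
    refine (gsum_le (a := D₁ * ‖v‖) (by positivity) (fun q hq =>
      (e₁ κ hκ x hx q (hQ hq) _ _ v (ha q) (hw q hq)).trans_eq (by ring)) hsum).trans ?_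
    nlinarith [mul_nonneg (mul_nonneg (add_nonneg h₂ h₃) h0) (norm_nonneg v)]
  · refine (gsum_le h₂ (fun q hq => e₂ κ x q (hQ hq) _ _ (ha q) (hw q hq)) hsum).trans ?_
    nlinarith [mul_nonneg (add_nonneg h₁ h₃) h0]
  · have hp : 0 ≤ ε + A' / κ ^ 2 := by positivity
    rw [gM, sum_apply, sum_apply, Finset.mul_sum, ← Finset.sum_sub_distrib]
    refine (gsum_le (a := D₃ * (ε + A' / κ ^ 2) * ‖v‖) (by positivity) (fun q hq =>
      le_of_eq_of_le (congrArg norm ?_) ((e₃ κ ε A' hκ hε hA x hx q (hQ hq) (hH q (hQ hq)) _ _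
        (ha q) (hw q hq) v hv).trans_eq (by ring))) hsum).trans ?_
    · simp only [smul_apply, smul_eq_mul]
      ring
    · nlinarith [mul_nonneg (mul_nonneg (mul_nonneg (add_nonneg h₁ h₂) h0) hp) (norm_nonneg v)]

end Pool.Agent.Lib.MP_ccffa6_gt
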