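import Pool.Agent.Lib.MP_ccffa6_gt.G.Data

/-!
Block G: estimates for one term in scaled variables.
-/

open Set Filter Topology Complex
open scoped ContDiff

noncomputable section

namespace Pool.Agent.Lib.MP_ccffa6_gt

variable {E : Type} [NormedAddCommGroup E] [NormedSpace ℝ E]
  {W : Type} [NormedAddCommGroup W] [NormedSpace ℝ W]

/-- Gaussians beat polynomials and exponentials. -/
theorem g_gauss {c : ℝ} (hc : 0 < c) (k : ℕ) :
    ∃ D : ℝ, 0 ≤ D ∧ ∀ t : ℝ, 0 ≤ t → (1 + t) ^ k * Real.exp (-(c * t ^ 2)) ≤ D * Real.exp (-t) := by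
  refine ⟨Real.exp ((k + 1) ^ 2 / (4 * c)), (Real.exp_pos _).le, fun t ht => ?_⟩
  have h1 : (1 + t) ^ k ≤ Real.exp (k * t) := by
    rw [Real.exp_nat_mul]
    exact pow_le_pow_left₀ (by positivity) (by linarith [Real.add_one_le_exp t]) k
  refine (mul_le_mul_of_nonneg_right h1 (Real.exp_pos _).le).trans ?_
  rw [← Real.exp_add, ← Real.exp_add, Real.exp_le_exp]
  have h2 : ((k : ℝ) + 1) * t - c * t ^ 2 ≤ (k + 1) ^ 2 / (4 * c) := by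
    rw [le_div_iff₀ (by positivity)]
    nlinarith [sq_nonneg ((k : ℝ) + 1 - 2 * c * t)]
  linarith

theorem g_exp_sub (a b : ℂ) :
    ‖exp a - exp b‖ ≤ ‖a - b‖ * max (Real.exp a.re) (Real.exp b.re) := by
  rw [mul_comm]
  refine (convex_halfSpace_re_le (max a.re b.re)).norm_image_sub_le_of_norm_hasDerivWithin_le
    (f' := exp) (fun z _ => (hasDerivAt_exp z).hasDerivWithinAt) (fun z hz => ?_)
    (le_max_right a.re b.re) (le_max_left a.re b.re)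
  rw [norm_exp, ← Real.exp_monotone.map_max]
  exact Real.exp_le_exp.2 hz

theorem gterm_val {H : CBil E} {A : ℝ} (hA : 1 ≤ A) (hH : ‖H‖ ≤ A) {a : ℂ} (ha : ‖a‖ ≤ 1) {w : E}
    (hw : ‖w‖ ≤ A) (U : E) : ‖a + H w U‖ ≤ A ^ 2 * (1 + ‖U‖) := by
  have h1 : ‖H w U‖ ≤ A * A * ‖U‖ := (H.le_opNorm₂ w U).trans (by gcongr)
  have h2 := norm_add_le a (H w U)
  nlinarith

theorem gMod_norm {H : CBil E} {A : ℝ} (hA : 1 ≤ A) (hH : ‖H‖ ≤ A) {a : ℂ} (ha : ‖a‖ ≤ 1) {w : E}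
    (hw : ‖w‖ ≤ A) (U : E) : ‖gMod H a w U‖ ≤ 2 * A ^ 3 * (1 + ‖U‖) ^ 2 := by
  have h0 := norm_nonneg U
  have h1 : ‖H w‖ ≤ A * A := (H.le_opNorm w).trans (by gcongr)
  have h2 : ‖H U‖ ≤ A * (1 + ‖U‖) := (H.le_opNorm U).trans (by gcongr; linarith)
  have h3 : ‖(a + H w U) / 2‖ ≤ A ^ 2 * (1 + ‖U‖) := by
    have := gterm_val hA hH ha hw U
    rw [norm_div, Complex.norm_two]
    linarith [norm_nonneg (a + H w U)]
  have h4 : ‖((a + H w U) / 2) • H U‖ ≤ A ^ 2 * (1 + ‖U‖) * (A * (1 + ‖U‖)) :=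
    (ContinuousLinearMap.opNorm_smul_le _ _).trans (by gcongr)
  have h5 : A * A ≤ A ^ 3 * (1 + ‖U‖) ^ 2 := by
    have : A * A * 1 * 1 ≤ A * A * A * (1 + ‖U‖) ^ 2 := by gcongr; nlinarith
    linarith
  have h6 := norm_sub_le (H w) (((a + H w U) / 2) • H U)
  rw [gMod]
  linarith

theorem gJet_bound {c A : ℝ} (hc : 0 < c) (hA : 1 ≤ A) :
    ∃ D : ℝ, 0 ≤ D ∧ ∀ (H B : CBil E) (β : E →L[ℝ] ℝ) (θ : ℝ) (j : W →L[ℝ] E) (a : ℂ)
      (w U U₀ : E), ‖H‖ ≤ A → (∀ V, (B V V).re ≤ -(c * ‖V‖ ^ 2)) → ‖j‖ ≤ A → ‖a‖ ≤ 1 →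
      ‖w‖ ≤ A → ‖U - U₀‖ ≤ 1 → ‖gJet H B β θ j a w U‖ ≤ D * Real.exp (-‖U₀‖) := by
  obtain ⟨D, hD, h⟩ := g_gauss hc 2
  refine ⟨2 * A ^ 4 * D * Real.exp 1, by positivity, fun H B β θ j a w U U₀ hH hB hj ha hw hU => ?_⟩
  have h0 := norm_nonneg U
  have h1 : ‖exp (I * (θ + β U : ℝ) + B U U)‖ ≤ Real.exp (-(c * ‖U‖ ^ 2)) := by
    rw [norm_exp, Real.exp_le_exp, add_re]
    simpa using hB U
  have h2 : ‖(a + H w U, (gMod H a w U).comp j)‖ ≤ 2 * A ^ 4 * (1 + ‖U‖) ^ 2 := by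
    refine max_le ((gterm_val hA hH ha hw U).trans ?_)
      ((ContinuousLinearMap.opNorm_comp_le _ _).trans ?_)
    · have : A ^ 2 * 1 * (1 + ‖U‖) * 1 ≤ A ^ 2 * (2 * A ^ 2) * (1 + ‖U‖) * (1 + ‖U‖) := by
        gcongr <;> nlinarith
      linarith
    · have := mul_le_mul (gMod_norm hA hH ha hw U) hj (norm_nonneg _) (by positivity)
      linarith
  have h3 : Real.exp (-‖U‖) ≤ Real.exp 1 * Real.exp (-‖U₀‖) := by
    rw [← Real.exp_add, Real.exp_le_exp]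
    have := norm_sub_norm_le U₀ U
    rw [norm_sub_rev] at this
    linarith
  calc ‖gJet H B β θ j a w U‖
      ≤ Real.exp (-(c * ‖U‖ ^ 2)) * (2 * A ^ 4 * (1 + ‖U‖) ^ 2) :=
        (norm_smul_le _ _).trans (mul_le_mul h1 h2 (norm_nonneg _) (Real.exp_pos _).le)
    _ = 2 * A ^ 4 * ((1 + ‖U‖) ^ 2 * Real.exp (-(c * ‖U‖ ^ 2))) := by ring
    _ ≤ 2 * A ^ 4 * (D * (Real.exp 1 * Real.exp (-‖U₀‖))) :=
        mul_le_mul_of_nonneg_left ((h _ h0).trans (mul_le_mul_of_nonneg_left h3 hD))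
          (by positivity)
    _ = _ := by ring

theorem gJet_lin {W' : Type} [NormedAddCommGroup W'] [NormedSpace ℝ W'] (H B : CBil E)
    (β : E →L[ℝ] ℝ) (θ : ℝ) (j : W →L[ℝ] E) (j' : W' →L[ℝ] E) (U : E) :
    IsLinearMap ℝ fun v : ℂ × W' => gJet H B β θ j v.1 (j' v.2) U := by
  constructor
  · intro x y
    refine Prod.ext ?_ (ContinuousLinearMap.ext fun v => ?_)
    · simp [gJet]; ring
    · simp [gJet, gMod_apply]; ring
  · intro r x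
    refine Prod.ext ?_ (ContinuousLinearMap.ext fun v => ?_)
    · simp [gJet]; ring
    · simp [gJet, gMod_apply]; ring

end Pool.Agent.Lib.MP_ccffa6_gt
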