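import Pool.Agent.Lib.MP_ccffa6_gt.G.Term

/-!
Block G: Lipschitz bound and injectivity for one term.
-/

open Set Filter Topology Complex
open scoped ContDiff

noncomputable section

namespace Pool.Agent.Lib.MP_ccffa6_gt

variable {E : Type} [NormedAddCommGroup E] [NormedSpace ℝ E]
  {W : Type} [NormedAddCommGroup W] [NormedSpace ℝ W]

theorem gterm2_bil {H : CBil E} {A r s : ℝ} (hH : ‖H‖ ≤ A) {u v : E} (hu : ‖u‖ ≤ r)
    (hv : ‖v‖ ≤ s) : ‖H u v‖ ≤ A * r * s :=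
  have h : 0 ≤ A := H.opNorm_nonneg.trans hH
  (H.le_opNorm₂ u v).trans (mul_le_mul (mul_le_mul hH hu (norm_nonneg _) h)
    hv (norm_nonneg _) (mul_nonneg h ((norm_nonneg _).trans hu)))

theorem gterm2_smul {V : Type} [NormedAddCommGroup V] [NormedSpace ℂ V] (x y : ℂ) (p q : V) :
    ‖x • p - y • q‖ ≤ ‖x - y‖ * ‖p‖ + ‖y‖ * ‖p - q‖ := by
  rw [← norm_smul, ← norm_smul, ← sub_add_sub_cancel (x • p) (y • p), sub_smul, smul_sub]
  exact norm_add_le _ _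

theorem gterm2_re (B : CBil E) (r : ℝ) (U : E) : (I * (r : ℝ) + B U U).re = (B U U).re := by simp

theorem gterm2_gauss {c t : ℝ} (hc : 0 < c) {B : CBil E} (hB : ∀ V, (B V V).re ≤ -(c * ‖V‖ ^ 2))
    (r : ℝ) {U : E} (ht0 : 0 ≤ t) (ht : t ≤ ‖U‖ + 1) :
    Real.exp (I * (r : ℝ) + B U U).re ≤ Real.exp c * Real.exp (-(c / 2 * t ^ 2)) := by
  rw [gterm2_re, ← Real.exp_add, Real.exp_le_exp]
  have h1 : t ^ 2 ≤ 2 * ‖U‖ ^ 2 + 2 := by nlinarith [norm_nonneg U, sq_nonneg (‖U‖ - 1)]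
  nlinarith [hB U]

theorem gterm2_mod {H : CBil E} {A r : ℝ} (hA : 1 ≤ A) (hr : 1 ≤ r) (hH : ‖H‖ ≤ A) {a : ℂ}
    {w U U' : E} (hw : ‖w‖ ≤ A) (hs : ‖a + H w U‖ ≤ 2 * A ^ 2 * r) (hU' : ‖U'‖ ≤ r) :
    ‖gMod H a w U - gMod H a w U'‖ ≤ 2 * A ^ 3 * r * ‖U - U'‖ := by
  refine ContinuousLinearMap.opNorm_le_bound _ (by positivity) fun v => ?_
  have e : (gMod H a w U - gMod H a w U') v =
      -((a + H w U) / 2 * H (U - U') v + H w (U - U') / 2 * H U' v) := by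
    simp only [sub_apply, gMod_apply, map_sub]
    ring
  have h1 := gterm2_bil hH (le_refl ‖U - U'‖) (le_refl ‖v‖)
  have h2 := gterm2_bil hH hw (le_refl ‖U - U'‖)
  have h3 := gterm2_bil hH hU' (le_refl ‖v‖)
  rw [e, norm_neg]
  refine (norm_add_le _ _).trans ?_
  rw [norm_mul, norm_mul, norm_div, norm_div, Complex.norm_two]
  refine (add_le_add (mul_le_mul (div_le_div_of_nonneg_right hs zero_le_two) h1 (norm_nonneg _)
    (by positivity)) (mul_le_mul (div_le_div_of_nonneg_right h2 zero_le_two) h3 (norm_nonneg _)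
    (by positivity))).trans ?_
  have h4 : 0 ≤ A ^ 3 * r * ‖U - U'‖ * ‖v‖ := by positivity
  nlinarith

theorem gJet_lip {c A : ℝ} (hc : 0 < c) (hA : 1 ≤ A) :
    ∃ D : ℝ, 0 ≤ D ∧ ∀ (H B : CBil E) (β : E →L[ℝ] ℝ) (θ : ℝ) (j : W →L[ℝ] E) (a : ℂ)
      (w U U' U₀ : E), ‖H‖ ≤ A → ‖B‖ ≤ A → (∀ V, (B V V).re ≤ -(c * ‖V‖ ^ 2)) →
      ‖β‖ ≤ A * ‖U₀‖ → ‖j‖ ≤ A → ‖a‖ ≤ 1 → ‖w‖ ≤ A → ‖U - U₀‖ ≤ 1 → ‖U' - U₀‖ ≤ 1 →
      ‖gJet H B β θ j a w U - gJet H B β θ j a w U'‖ ≤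
        D * Real.exp (-‖U₀‖) * ‖U - U'‖ := by
  obtain ⟨D, hD, hg⟩ := g_gauss (half_pos hc) 3
  refine ⟨26 * A ^ 5 * Real.exp c * D, by positivity,
    fun H B β θ j a w U U' U₀ hH hB hBc hβ hj ha hw hU hU' => ?_⟩
  have ht := norm_nonneg U₀
  have hg' := hg _ ht
  have u1 : ‖U‖ ≤ 1 + ‖U₀‖ := by linarith [norm_le_insert' U U₀]
  have u2 : ‖U'‖ ≤ 1 + ‖U₀‖ := by linarith [norm_le_insert' U' U₀]
  have g1 := gterm2_gauss hc hBc (θ + β U) ht (by linarith [norm_le_insert U U₀] : _ ≤ ‖U‖ + 1)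
  have g2 := gterm2_gauss hc hBc (θ + β U') ht (by linarith [norm_le_insert U' U₀] : _ ≤ ‖U'‖ + 1)
  have hβ' : ‖β‖ ≤ A * (1 + ‖U₀‖) := by nlinarith
  have hr : 1 ≤ 1 + ‖U₀‖ := by linarith
  generalize Real.exp (-(c / 2 * ‖U₀‖ ^ 2)) = G at hg' g1 g2
  generalize 1 + ‖U₀‖ = r at *
  have hG : 0 ≤ Real.exp c * G := (Real.exp_pos _).le.trans g1
  have hA2 : 1 ≤ A ^ 2 * r := one_le_mul_of_one_le_of_one_le (one_le_pow₀ hA) hr
  have hs : ‖a + H w U‖ ≤ 2 * A ^ 2 * r := by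
    nlinarith [norm_add_le a (H w U), gterm2_bil hH hw u1]
  have p1 : ‖(I * (θ + β U : ℝ) + B U U) - (I * (θ + β U' : ℝ) + B U' U')‖ ≤
      3 * A * r * ‖U - U'‖ := by
    have e : (I * (θ + β U : ℝ) + B U U) - (I * (θ + β U' : ℝ) + B U' U') =
        I * (β (U - U') : ℝ) + (B U (U - U') + B (U - U') U') := by
      simp only [map_sub, sub_apply]
      push_cast
      ring
    have h1 := (β.le_opNorm (U - U')).trans (mul_le_mul_of_nonneg_right hβ' (norm_nonneg _))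
    rw [e]
    refine (norm_add_le _ _).trans ?_
    rw [norm_mul, norm_I, one_mul, norm_real]
    linarith [norm_add_le (B U (U - U')) (B (U - U') U'), gterm2_bil hB u1 (le_refl ‖U - U'‖),
      gterm2_bil hB (le_refl ‖U - U'‖) u2]
  have p2 := (g_exp_sub _ _).trans (mul_le_mul p1 (max_le g1 g2)
    (le_max_of_le_left (Real.exp_pos _).le) (by positivity))
  have p3 : ‖(a + H w U, (gMod H a w U).comp j)‖ ≤ 8 * A ^ 4 * r ^ 2 := by
    refine norm_prod_le_iff.2 ⟨hs.trans (by nlinarith), ?_⟩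
    refine ((gMod H a w U).opNorm_comp_le j).trans ((mul_le_mul ((gMod_norm hA hH ha hw U).trans
      (by gcongr; linarith : _ ≤ 2 * A ^ 3 * (2 * r) ^ 2)) hj (norm_nonneg _)
        (by positivity)).trans (le_of_eq (by ring)))
  have p4 : ‖(a + H w U, (gMod H a w U).comp j) - (a + H w U', (gMod H a w U').comp j)‖ ≤
      2 * A ^ 4 * r * ‖U - U'‖ := by
    refine norm_prod_le_iff.2 ⟨?_, ?_⟩
    · rw [Prod.fst_sub, add_sub_add_left_eq_sub, ← map_sub]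
      refine (gterm2_bil hH hw le_rfl).trans (mul_le_mul_of_nonneg_right ?_ (norm_nonneg _))
      nlinarith [sq_nonneg A]
    · rw [Prod.snd_sub, ← ContinuousLinearMap.sub_comp]
      exact (ContinuousLinearMap.opNorm_comp_le _ j).trans ((mul_le_mul
        (gterm2_mod hA hr hH hw hs u2) hj (norm_nonneg _) (by positivity)).trans
          (le_of_eq (by ring)))
  refine (gterm2_smul (V := ℂ × (W →L[ℝ] ℂ)) _ _ _ _).trans ?_
  rw [norm_exp]
  refine (add_le_add (mul_le_mul p2 p3 (norm_nonneg _) (by positivity))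
    (mul_le_mul g2 p4 (norm_nonneg _) hG)).trans ?_
  have q1 : A ^ 4 * r ≤ A ^ 5 * r ^ 3 :=
    mul_le_mul (pow_le_pow_right₀ hA (by norm_num)) (le_self_pow₀ hr (by norm_num))
      (by positivity) (by positivity)
  have q2 := mul_le_mul_of_nonneg_right q1 (mul_nonneg hG (norm_nonneg (U - U')))
  have q3 := mul_le_mul_of_nonneg_left hg'
    (by positivity : 0 ≤ 26 * A ^ 5 * Real.exp c * ‖U - U'‖)
  linarith

/-- The first component controls `a + H w U`, the second one, tested on `z`, controls `z`. -/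
theorem gJet_inj {c A : ℝ} (hc : 0 < c) (hA : 1 ≤ A) :
    ∃ d : ℝ, 0 < d ∧ ∀ (H B : CBil E) (β : E →L[ℝ] ℝ) (θ : ℝ) (j : W →L[ℝ] E) (a : ℂ) (z : W)
      (U : E), ‖H‖ ≤ A → ‖B‖ ≤ A → (∀ V, c * ‖V‖ ^ 2 ≤ (H V V).re) → ‖j‖ ≤ A →
      (∀ y, c * ‖y‖ ≤ ‖j y‖) → ‖U‖ ≤ 1 → d * ‖(a, z)‖ ≤ ‖gJet H B β θ j a (j z) U‖ := by
  refine ⟨Real.exp (-A) * (c ^ 3 / (c ^ 3 + 2 * A ^ 4)), by positivity,
    fun H B β θ j a z U hH hB hHc hj hjc hU => ?_⟩
  rw [gJet, norm_smul, norm_exp, gterm2_re, mul_assoc]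
  refine mul_le_mul (Real.exp_le_exp.2 ?_) ?_ (by positivity) (Real.exp_pos _).le
  · linarith [gterm2_bil hB hU hU, (abs_le.1 (abs_re_le_norm (B U U))).1]
  have h1 := norm_fst_le (a + H (j z) U, (gMod H a (j z) U).comp j)
  have h2 := (((gMod H a (j z) U).comp j).le_opNorm z).trans (mul_le_mul_of_nonneg_right
    (norm_snd_le (a + H (j z) U, (gMod H a (j z) U).comp j)) (norm_nonneg z))
  generalize ‖(a + H (j z) U, (gMod H a (j z) U).comp j)‖ = N at h1 h2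
  have hN : 0 ≤ N := (norm_nonneg _).trans h1
  have hz := norm_nonneg z
  have h3 : ‖j z‖ ≤ A * ‖z‖ := (j.le_opNorm z).trans (mul_le_mul_of_nonneg_right hj hz)
  have h4 : ‖(a + H (j z) U) / 2 * H U (j z)‖ ≤ N / 2 * (A * 1 * (A * ‖z‖)) := by
    rw [norm_mul, norm_div, Complex.norm_two]
    exact mul_le_mul (div_le_div_of_nonneg_right h1 zero_le_two) (gterm2_bil hH hU h3)
      (norm_nonneg _) (by positivity)
  rw [ContinuousLinearMap.comp_apply, gMod_apply] at h2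
  have hA2 : 1 ≤ A ^ 2 := one_le_pow₀ hA
  have h5 : c ^ 3 * ‖z‖ * ‖z‖ ≤ 2 * A ^ 2 * N * ‖z‖ := by
    have e1 := mul_le_mul_of_nonneg_left (pow_le_pow_left₀ (by positivity) (hjc z) 2) hc.le
    have e2 := (hHc (j z)).trans ((re_le_norm _).trans
      (norm_le_insert' _ ((a + H (j z) U) / 2 * H U (j z))))
    have e3 := mul_le_mul_of_nonneg_right hA2 (mul_nonneg hN hz)
    nlinarith [mul_nonneg hN hz]
  have h6 : c ^ 3 * ‖z‖ ≤ 2 * A ^ 2 * N := by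
    rcases hz.eq_or_lt with h | h
    · rw [← h, mul_zero]
      positivity
    · exact le_of_mul_le_mul_right h5 h
  have h7 : ‖a‖ ≤ N + A ^ 2 * ‖z‖ := by
    have e1 := norm_sub_le (a + H (j z) U) (H (j z) U)
    rw [add_sub_cancel_right] at e1
    nlinarith [gterm2_bil hH h3 hU]
  have hc3 : 0 < c ^ 3 := by positivity
  rw [div_mul_eq_mul_div, div_le_iff₀ (by positivity), Prod.norm_mk, mul_max_of_nonneg _ _ hc3.le]
  have e4 := mul_le_mul_of_nonneg_left h6 (sq_nonneg A)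
  have e5 := mul_le_mul_of_nonneg_right hA2 (by positivity : 0 ≤ 2 * A ^ 2 * N)
  refine max_le ?_ ?_
  · nlinarith [mul_le_mul_of_nonneg_left h7 hc3.le]
  · nlinarith [mul_nonneg hN hc3.le]

end Pool.Agent.Lib.MP_ccffa6_gt
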